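import Pool.Agent.W517.Gr.Eval
import Pool.Agent.W517.Gr.Data

set_option autoImplicit false
set_option linter.unusedSectionVars false

namespace Pool.Agent.Y240.Gr

open Finset

section coeffs

universe u

variable {A : Type u} {B : Type*} [CommRing A] [CommRing B] {ι : Type*} [Fintype ι] [DecidableEq ι]

/-- the coefficient of `X ^ m` in `det (1 + X M)`. -/
noncomputable def cc (M : Matrix ι ι A) (m : ℕ) : A :=
  (((Polynomial.X : Polynomial A) • M.map Polynomial.C + 1 :
    Matrix ι ι (Polynomial A)).det).coeff m

theorem cc_map (φ : A →+* B) (M : Matrix ι ι A) (m : ℕ) : cc (M.map φ) m = φ (cc M m) := by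
  unfold cc
  rw [← Polynomial.coeff_map, ← Polynomial.coe_mapRingHom, RingHom.map_det]
  congr 2
  ext i j
  simp only [Matrix.add_apply, Matrix.smul_apply, Matrix.map_apply, smul_eq_mul,
    RingHom.mapMatrix_apply, Polynomial.coe_mapRingHom, Polynomial.map_add, Polynomial.map_mul,
    Polynomial.map_X, Polynomial.map_C, Matrix.one_apply]
  split_ifs <;> simp

theorem det_one_form : ∀ (M : Matrix ι ι A),
    ((Polynomial.X : Polynomial A) • M.map Polynomial.C + 1 : Matrix ι ι (Polynomial A)) =
    (Polynomial.X : Polynomial A) • M.map Polynomial.C +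
      (1 : Matrix ι ι A).map Polynomial.C := by
  intro M
  rw [Matrix.map_one _ (map_zero _) (map_one _)]

theorem cc_card (M : Matrix ι ι A) : cc M (Fintype.card ι) = M.det := by
  unfold cc
  rw [det_one_form, Polynomial.coeff_det_X_add_C_card]

theorem cc_gt (M : Matrix ι ι A) {m : ℕ} (hm : Fintype.card ι < m) : cc M m = 0 := by
  unfold cc
  rw [det_one_form]
  exact Polynomial.coeff_eq_zero_of_natDegree_lt
    (lt_of_le_of_lt (Polynomial.natDegree_det_X_add_C_le M 1) hm)

theorem cc_zero (M : Matrix ι ι A) : cc M 0 = 1 := by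
  unfold cc
  rw [det_one_form, Polynomial.coeff_det_X_add_C_zero, Matrix.det_one]

theorem cc_of_zero (m : ℕ) : cc (0 : Matrix ι ι A) m = if m = 0 then 1 else 0 := by
  unfold cc
  rw [Matrix.map_zero _ (map_zero _), smul_zero, zero_add, Matrix.det_one, Polynomial.coeff_one]

/-- equality modulo the annihilator of `a`. -/
theorem exists_quot (a : A) : ∃ (Q : Type u) (_ : CommRing Q) (φ : A →+* Q),
    ∀ x y : A, φ x = φ y ↔ a * x = a * y := by
  let J : Ideal A := LinearMap.ker (LinearMap.mulLeft A a)
  refine ⟨A ⧸ J, inferInstance, Ideal.Quotient.mk J, fun x y => ?_⟩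
  rw [Ideal.Quotient.eq]
  change LinearMap.mulLeft A a (x - y) = 0 ↔ _
  rw [LinearMap.mulLeft_apply, mul_sub, sub_eq_zero]

theorem det_congr_mod (a : A) (M N : Matrix ι ι A) (h : ∀ i j, a * M i j = a * N i j) :
    a * M.det = a * N.det := by
  obtain ⟨Q, _, φ, hφ⟩ := exists_quot a
  rw [← hφ, RingHom.map_det, RingHom.map_det]
  congr 1
  ext i j
  exact (hφ _ _).2 (h i j)

theorem cc_congr_mod (a : A) (M N : Matrix ι ι A) (h : ∀ i j, a * M i j = a * N i j) (m : ℕ) :
    a * cc M m = a * cc N m := by
  obtain ⟨Q, _, φ, hφ⟩ := exists_quot a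
  rw [← hφ, ← cc_map, ← cc_map]
  congr 1
  ext i j
  exact (hφ _ _).2 (h i j)

/-- A matrix which is triangular for an injective function to `ℕ`. -/
theorem det_of_inj {κ : Type*} [Fintype κ] [DecidableEq κ] (b : κ → ℕ)
    (hb : Function.Injective b) (M : Matrix κ κ A) (h : ∀ i j, b j < b i → M i j = 0) :
    M.det = ∏ i, M i i := by
  rw [Matrix.det_apply, Finset.sum_eq_single 1]
  · simp
  · intro σ _ hσ
    have : ∃ i, b i < b (σ i) := by
      by_contra hcon
      push Not at hcon
      have hsum : ∑ i, b (σ i) = ∑ i, b i := Equiv.sum_comp σ b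
      have h2 : ∀ i ∈ Finset.univ, b (σ i) = b i := by
        exact (Finset.sum_eq_sum_iff_of_le (fun i _ => hcon i)).1 hsum
      exact hσ (Equiv.ext fun i => hb (h2 i (Finset.mem_univ i)))
    obtain ⟨i, hi⟩ := this
    have hp : ∏ i, M (σ i) i = 0 := Finset.prod_eq_zero (Finset.mem_univ i) (h (σ i) i hi)
    rw [hp, smul_zero]
  · simp

end coeffs

section schur

variable {A B : Type*} [CommRing A] [CommRing B] {ι : Type*} [Fintype ι] [DecidableEq ι]

/-- `c_m` for integers `m`. -/
noncomputable def cz (M : Matrix ι ι A) (m : ℤ) : A := if 0 ≤ m then cc M m.toNat else 0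

/-- the Schur determinant `det [c_{λ_j - j + l}]`. -/
noncomputable def schur {k : ℕ} (M : Matrix ι ι A) (lam : Fin k → ℕ) : A :=
  (Matrix.of fun j l : Fin k => cz M ((lam j : ℤ) - (j : ℕ) + (l : ℕ))).det

theorem cz_map (φ : A →+* B) (M : Matrix ι ι A) (m : ℤ) : cz (M.map φ) m = φ (cz M m) := by
  unfold cz
  split_ifs
  · exact cc_map φ M _
  · exact (map_zero φ).symm

theorem schur_map (φ : A →+* B) {k : ℕ} (M : Matrix ι ι A) (lam : Fin k → ℕ) :
    schur (M.map φ) lam = φ (schur M lam) := by
  unfold schur
  rw [RingHom.map_det]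
  congr 1
  ext j l
  simp only [Matrix.of_apply, RingHom.mapMatrix_apply, Matrix.map_apply]
  exact cz_map φ M _

/-- the hook `(9, 1, …, 1)` of size `8 + k'` (`(8)` if `k' = 0`). -/
def hook (k' : ℕ) (j : Fin (8 + k')) : ℕ :=
  if (j : ℕ) = 0 then (if k' = 0 then 8 else 9) else if (j : ℕ) < k' then 1 else 0

/-- Evaluation of the hook Schur determinant. -/
theorem schur_hook {k' : ℕ} (M : Matrix ι ι A) (Ω Y D : A)
    (h0 : k' = 0 → Y = 0)
    (h8 : k' = 0 → cc M 8 = D * Ω) (h9 : k' ≠ 0 → cc M 9 = D * Ω * Y)
    (hbig : ∀ m, (if k' = 0 then 8 else 9) < m → cc M m = 0)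
    (hmod : ∀ m, Ω * cc M m = Ω * (if m = 0 then 1 else if m = 1 then Y else 0)) :
    schur M (hook k') = D * Ω * Y ^ k' := by
  classical
  set z' : ℤ → A := fun m => if m = 0 then 1 else if m = 1 then Y else 0 with hz'
  have hcz : ∀ m : ℤ, Ω * cz M m = Ω * z' m := by
    intro m
    unfold cz
    split_ifs with hm
    · rw [hmod]
      obtain ⟨m, rfl⟩ := Int.eq_ofNat_of_zero_le hm
      simp only [Int.toNat_natCast, hz', Nat.cast_eq_zero, Nat.cast_eq_one]
    · simp only [hz']
      rw [if_neg (by omega), if_neg (by omega)]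
  -- the two auxiliary matrices
  let z0 : Fin (8 + k') := ⟨0, by omega⟩
  set E : Matrix (Fin (8 + k')) (Fin (8 + k')) A :=
    Matrix.of fun j l : Fin (8 + k') => cz M ((hook k' j : ℤ) - (j : ℕ) + (l : ℕ)) with hE
  set E' : Matrix (Fin (8 + k')) (Fin (8 + k')) A := E.updateRow z0 (Pi.single z0 1) with hE'
  set c0 : A := D * Ω * (if k' = 0 then 1 else Y) with hc0
  have hrow : E = E'.updateRow z0 (c0 • Pi.single z0 (1 : A)) := by
    ext j l
    by_cases hj : j = z0
    · subst hj
      rw [Matrix.updateRow_self, hE, Matrix.of_apply, Pi.smul_apply, smul_eq_mul]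
      have hh : hook k' z0 = if k' = 0 then 8 else 9 := by simp [hook, z0]
      rw [hh]
      by_cases hl : l = z0
      · subst hl
        rw [Pi.single_eq_same, mul_one, hc0]
        by_cases hk : k' = 0
        · rw [if_pos hk, if_pos hk, mul_one]
          simp only [z0, cz]
          norm_num
          exact h8 hk
        · rw [if_neg hk, if_neg hk]
          simp only [z0, cz]
          norm_num
          exact h9 hk
      · rw [Pi.single_eq_of_ne hl, mul_zero]
        have hl0 : 0 < (l : ℕ) := by
          rcases Nat.eq_zero_or_pos (l : ℕ) with h | h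
          · exact absurd (Fin.ext h) hl
          · exact h
        unfold cz
        have hnn : (0 : ℤ) ≤ ((if k' = 0 then 8 else 9 : ℕ) : ℤ) - ((z0 : Fin (8 + k')) : ℕ) + (l : ℕ) := by
          simp only [z0]
          split_ifs <;> push_cast <;> omega
        rw [if_pos hnn]
        apply hbig
        simp only [z0]
        split_ifs <;> push_cast <;> omega
    · rw [Matrix.updateRow_ne hj, hE', Matrix.updateRow_ne hj]
  have hdet : schur M (hook k') = c0 * E'.det := by
    change E.det = _
    conv_lhs => rw [hrow]
    rw [Matrix.det_updateRow_smul]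
    congr 2
    rw [hE', Matrix.updateRow_idem]
  -- reduce modulo the annihilator of Ω
  set N : Matrix (Fin (8 + k')) (Fin (8 + k')) A := Matrix.of fun j l : Fin (8 + k') =>
    if j = z0 then (if l = z0 then 1 else 0) else z' ((hook k' j : ℤ) - (j : ℕ) + (l : ℕ)) with hN
  have hEN : Ω * E'.det = Ω * N.det := by
    apply det_congr_mod
    intro j l
    by_cases hj : j = z0
    · subst hj
      rw [hE', Matrix.updateRow_self, hN, Matrix.of_apply, if_pos rfl, Pi.single_apply]
    · rw [hE', Matrix.updateRow_ne hj, hN, Matrix.of_apply, if_neg hj, hE, Matrix.of_apply]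
      exact hcz _
  have hNdet : N.det = Y ^ (k' - 1) := by
    rw [det_of_inj (fun j : Fin (8 + k') => if (j : ℕ) < k' then k' - 1 - j else k' + j) ?_ N ?_]
    · have hdiag : ∀ i : Fin (8 + k'), N i i = if 0 < (i : ℕ) ∧ (i : ℕ) < k' then Y else 1 := by
        intro i
        rw [hN, Matrix.of_apply]
        by_cases hi : i = z0
        · subst hi; simp [z0]
        · have hi0 : (i : ℕ) ≠ 0 := fun h => hi (Fin.ext h)
          rw [if_neg hi, sub_add_cancel]
          by_cases hik : (i : ℕ) < k'
          · have h1 : hook k' i = 1 := by simp [hook, hi0, hik]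
            have h2 : 0 < (i : ℕ) ∧ (i : ℕ) < k' := ⟨Nat.pos_of_ne_zero hi0, hik⟩
            rw [h1, if_pos h2]
            simp [hz']
          · have h1 : hook k' i = 0 := by simp [hook, hi0, hik]
            have h2 : ¬ (0 < (i : ℕ) ∧ (i : ℕ) < k') := fun h => hik h.2
            rw [h1, if_neg h2]
            simp [hz']
      rw [Finset.prod_congr rfl (fun i _ => hdiag i), Finset.prod_ite, Finset.prod_const_one,
        mul_one, Finset.prod_const]
      congr 1
      have : (Finset.univ.filter fun i : Fin (8 + k') => 0 < (i : ℕ) ∧ (i : ℕ) < k').card =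
          (Finset.Ico 1 k').card := by
        refine Finset.card_bij (fun i _ => (i : ℕ)) ?_ ?_ ?_
        · intro i hi
          rw [Finset.mem_filter] at hi
          rw [Finset.mem_Ico]
          omega
        · intro i _ j _ h
          exact Fin.ext h
        · intro m hm
          rw [Finset.mem_Ico] at hm
          refine ⟨⟨m, by omega⟩, ?_, rfl⟩
          rw [Finset.mem_filter]
          refine ⟨Finset.mem_univ _, ?_⟩
          simp only
          omega
      rw [this, Nat.card_Ico]
    · intro i j hij
      simp only at hij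
      apply Fin.ext
      have := i.isLt
      have := j.isLt
      split_ifs at hij <;> omega
    · intro i j hij
      rw [hN, Matrix.of_apply]
      by_cases hi : i = z0
      · subst hi
        rw [if_pos rfl, if_neg]
        rintro rfl
        exact lt_irrefl _ hij
      · have hi0 : (i : ℕ) ≠ 0 := fun h => hi (Fin.ext h)
        rw [if_neg hi]
        have hi2 := i.isLt
        have hj2 := j.isLt
        by_cases hik : (i : ℕ) < k'
        · have h1 : hook k' i = 1 := by simp [hook, hi0, hik]
          rw [if_pos hik] at hij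
          have n0 : ¬ ((hook k' i : ℤ) - (i : ℕ) + (j : ℕ) = 0) := by
            intro h
            rw [h1] at h
            have : (i : ℕ) = j + 1 := by push_cast at h; omega
            split_ifs at hij <;> omega
          have n1 : ¬ ((hook k' i : ℤ) - (i : ℕ) + (j : ℕ) = 1) := by
            intro h
            rw [h1] at h
            have : (i : ℕ) = j := by push_cast at h; omega
            split_ifs at hij <;> omega
          simp only [hz']
          rw [if_neg n0, if_neg n1]
        · have h1 : hook k' i = 0 := by simp [hook, hi0, hik]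
          rw [if_neg hik] at hij
          have n0 : ¬ ((hook k' i : ℤ) - (i : ℕ) + (j : ℕ) = 0) := by
            intro h
            rw [h1] at h
            have : (j : ℕ) = i := by push_cast at h; omega
            split_ifs at hij <;> omega
          have n1 : ¬ ((hook k' i : ℤ) - (i : ℕ) + (j : ℕ) = 1) := by
            intro h
            rw [h1] at h
            have : (j : ℕ) = i + 1 := by push_cast at h; omega
            split_ifs at hij <;> omega
          simp only [hz']
          rw [if_neg n0, if_neg n1]
  rw [hdet, hc0]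
  have e1 : D * Ω * (if k' = 0 then 1 else Y) * E'.det =
      D * (if k' = 0 then 1 else Y) * (Ω * E'.det) := by ring
  rw [e1, hEN, hNdet]
  by_cases hk : k' = 0
  · subst hk; simp
  · rw [if_neg hk]
    obtain ⟨m, rfl⟩ := Nat.exists_eq_succ_of_ne_zero hk
    simp only [Nat.succ_eq_add_one, Nat.add_sub_cancel]
    ring

end schur

end Pool.Agent.Y240.Gr
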