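import Pool.Agent.Y240.Gr.Alg

set_option autoImplicit false
set_option linter.unusedSectionVars false

namespace Pool.Agent.Y240.Gr

open Finset Pool.Agent.W517.Gr

section block

variable {A : Type*} [CommRing A] {ι κ : Type*} [Fintype ι] [DecidableEq ι] [Fintype κ]
  [DecidableEq κ]

/-- `det (1 + X M)`. -/
noncomputable def cpoly (M : Matrix ι ι A) : Polynomial A :=
  ((Polynomial.X : Polynomial A) • M.map Polynomial.C + 1 : Matrix ι ι (Polynomial A)).det

theorem cc_eq (M : Matrix ι ι A) (m : ℕ) : cc M m = (cpoly M).coeff m := rfl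

theorem cpoly_submatrix (M : Matrix ι ι A) (e : κ ≃ ι) :
    cpoly (M.submatrix e e) = cpoly M := by
  unfold cpoly
  rw [← Matrix.det_submatrix_equiv_self e]
  congr 1
  ext i j
  simp [Matrix.submatrix_apply, Matrix.one_apply]

theorem cpoly_diagonal (d : ι → A) :
    cpoly (Matrix.diagonal d) = ∏ i, (1 + Polynomial.X * Polynomial.C (d i)) := by
  unfold cpoly
  have : ((Polynomial.X : Polynomial A) • (Matrix.diagonal d).map Polynomial.C + 1 :
      Matrix ι ι (Polynomial A)) =
      Matrix.diagonal fun i => 1 + Polynomial.X * Polynomial.C (d i) := by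
    ext1 i j
    by_cases h : i = j
    · subst h
      simp [add_comm]
    · simp [h, Matrix.one_apply_ne h]
  rw [this, Matrix.det_diagonal]

theorem cpoly_fromBlocks (G : Matrix ι ι A) (H : Matrix κ κ A) :
    cpoly (Matrix.fromBlocks G 0 0 H) = cpoly G * cpoly H := by
  unfold cpoly
  rw [← Matrix.det_fromBlocks_zero₂₁ _ 0]
  congr 1
  rw [Matrix.fromBlocks_map, ← Matrix.fromBlocks_one, Matrix.fromBlocks_smul,
    Matrix.fromBlocks_add]
  congr 1
  · ext i j; simp
  · ext i j; simp

/-- The block matrix with `G` in the upper left corner and `Y` at the ninth place. -/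
def blk (r' : ℕ) (G : Matrix (Fin 8) (Fin 8) A) (Y : A) : Matrix (Fin (8 + r')) (Fin (8 + r')) A :=
  (Matrix.fromBlocks G 0 0 (Matrix.diagonal fun a : Fin r' => if (a : ℕ) = 0 then Y else 0)).submatrix
    finSumFinEquiv.symm finSumFinEquiv.symm

theorem cpoly_blk (r' : ℕ) (G : Matrix (Fin 8) (Fin 8) A) (Y : A) (hY : r' = 0 → Y = 0) :
    cpoly (blk r' G Y) = cpoly G * (1 + Polynomial.X * Polynomial.C Y) := by
  unfold blk
  rw [cpoly_submatrix, cpoly_fromBlocks, cpoly_diagonal]
  congr 1
  rcases Nat.eq_zero_or_pos r' with h | h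
  · subst h
    rw [hY rfl]
    simp
  · rw [Finset.prod_eq_single (⟨0, h⟩ : Fin r')]
    · simp
    · intro b _ hb
      have : (b : ℕ) ≠ 0 := fun h0 => hb (Fin.ext h0)
      rw [if_neg this]
      simp
    · simp

theorem coeff_aux (P : Polynomial A) (Y : A) (m : ℕ) :
    (P * (1 + Polynomial.X * Polynomial.C Y)).coeff m =
      P.coeff m + (if m = 0 then 0 else P.coeff (m - 1) * Y) := by
  have h : P * (1 + Polynomial.X * Polynomial.C Y) = P + (P * Polynomial.C Y) * Polynomial.X := by
    ring
  rw [h, Polynomial.coeff_add]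
  rcases m with _ | m
  · rw [Polynomial.coeff_mul_X_zero, if_pos rfl]
  · rw [Polynomial.coeff_mul_X, Polynomial.coeff_mul_C, if_neg (Nat.succ_ne_zero m),
      Nat.add_sub_cancel]

theorem cc_blk (r' : ℕ) (G : Matrix (Fin 8) (Fin 8) A) (Y : A) (hY : r' = 0 → Y = 0) (m : ℕ) :
    cc (blk r' G Y) m = cc G m + (if m = 0 then 0 else cc G (m - 1) * Y) := by
  rw [cc_eq, cpoly_blk r' G Y hY, coeff_aux, ← cc_eq, ← cc_eq]

/-- The hook Schur determinant of the block matrix. -/
theorem schur_blk (r' k' : ℕ) (hrk : r' = 0 → k' = 0) (G : Matrix (Fin 8) (Fin 8) A) (Ω Y D : A)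
    (hY : k' = 0 → Y = 0) (hdet : G.det = D * Ω) (hΩ : ∀ a b, Ω * G a b = 0) :
    schur (blk r' G Y) (hook k') = D * Ω * Y ^ k' := by
  have hYr : r' = 0 → Y = 0 := fun h => hY (hrk h)
  have h8 : cc G 8 = D * Ω := by
    have := cc_card G
    rw [Fintype.card_fin] at this
    rw [this, hdet]
  have hgt : ∀ m, 8 < m → cc G m = 0 := fun m hm => cc_gt G (by rw [Fintype.card_fin]; exact hm)
  have hmodG : ∀ m, Ω * cc G m = Ω * (if m = 0 then 1 else 0) := by
    intro m
    rw [← cc_of_zero (A := A) (ι := Fin 8) m]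
    exact cc_congr_mod Ω G 0 (fun i j => by rw [hΩ]; simp) m
  refine schur_hook _ Ω Y D hY ?_ ?_ ?_ ?_
  · intro hk
    rw [cc_blk r' G Y hYr, h8, hY hk]
    simp
  · intro hk
    rw [cc_blk r' G Y hYr, hgt 9 (by norm_num), if_neg (by norm_num), zero_add]
    rw [show 9 - 1 = 8 from rfl, h8]
  · intro m hm
    rw [cc_blk r' G Y hYr]
    by_cases hk : k' = 0
    · rw [if_pos hk] at hm
      rw [hgt m hm, hY hk]
      simp
    · rw [if_neg hk] at hm
      rw [hgt m (by omega), hgt (m - 1) (by omega)]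
      simp
  · intro m
    rw [cc_blk r' G Y hYr, mul_add, hmodG]
    rcases m with _ | m
    · simp
    · rw [if_neg (Nat.succ_ne_zero m), if_neg (Nat.succ_ne_zero m), Nat.add_sub_cancel,
        ← mul_assoc, hmodG]
      rcases m with _ | m
      · simp
      · simp

/-- powers of sums of elements of square zero. -/
theorem pow_sum_sq_zero {κ : Type*} [DecidableEq κ] (x : κ → A) (hx : ∀ i, x i * x i = 0)
    (s : Finset κ) : (∑ i ∈ s, x i) ^ s.card = (s.card.factorial : A) * ∏ i ∈ s, x i ∧
      (∑ i ∈ s, x i) ^ (s.card + 1) = 0 := by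
  induction s using Finset.induction_on with
  | empty => simp
  | insert a s ha ih =>
    obtain ⟨h1, h2⟩ := ih
    set T := ∑ i ∈ s, x i with hT
    have key : ∀ m : ℕ, (x a + T) ^ (m + 1) = T ^ (m + 1) + (m + 1 : ℕ) * (x a * T ^ m) := by
      intro m
      induction m with
      | zero => simp; ring
      | succ m ihm =>
        rw [pow_succ, ihm]
        have hxa := hx a
        push_cast
        linear_combination ((m : A) + 1) * T ^ m * hxa
    rw [Finset.sum_insert ha, Finset.prod_insert ha, Finset.card_insert_of_notMem ha]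
    constructor
    · rw [key, h2, h1, Nat.factorial_succ]
      push_cast
      ring
    · rw [key, pow_succ T, h2]
      ring

end block

end Pool.Agent.Y240.Gr
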