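import Pool.Agent.Y240.Gr.Tens
import Pool.Agent.Y240.Gr.Alg2

set_option autoImplicit false
set_option linter.unusedSectionVars false

namespace Pool.Agent.Y240.Gr

open Finset Filter Topology
open scoped ContDiff ComplexOrder Matrix
open Pool.Agent.W517.Gr (Cn sf R0 qf qf_nonneg ip R0_symm mul_star_self ip_self FormAlg Forms wedge2
  dzf dzbf hdet hdet_R0 hdet_map det_eq_hdet wedge2_rel wedge2_self_left wedge2_self_right evalForm
  realFrame eval_top curvatureForm chernForm chernCurvature IsMetricOnO1 GriffithsPositiveAt inChart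
  Cutoff exists_Cutoff CForm)

section value

variable {r' k' : ℕ}

/-- the forms `dz_i ∧ dz̄_j` -/
noncomputable def om (i j : Fin (8 + k')) : FormAlg (8 + k') := wedge2 (dzf i) (dzbf j)

/-- the upper left block -/
noncomputable def GG (k' : ℕ) (q : ℂ) : Matrix (Fin 8) (Fin 8) (FormAlg (8 + k')) :=
  q • Matrix.of fun a b => ∑ i, ∑ j, ((R0 a b i j : ℤ) : ℂ) • om (Fin.castAdd k' i) (Fin.castAdd k' j)

/-- the ninth diagonal entry -/
noncomputable def YY (k' : ℕ) (q : ℂ) : FormAlg (8 + k') :=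
  q • ∑ i : Fin k', om (Fin.natAdd 8 i) (Fin.natAdd 8 i)

/-- the product of the first eight `dz_i ∧ dz̄_i` -/
noncomputable def O8 (k' : ℕ) : FormAlg (8 + k') :=
  ∏ b : Fin 8, om (Fin.castAdd k' b) (Fin.castAdd k' b)

/-- The matrix of curvature forms. -/
noncomputable def MM (r' k' : ℕ) (q δ : ℂ) : Matrix (Fin (8 + r')) (Fin (8 + r')) (FormAlg (8 + k')) :=
  Matrix.of fun a b => ∑ i, ∑ j,
    (q * (((T0 a b i j : ℤ) : ℂ) + δ * ((if a = b then 1 else 0) * (if i = j then 1 else 0)))) •
      om i j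

theorem GG_det (q : ℂ) : (GG k' q).det = algebraMap ℂ (FormAlg (8 + k')) (q ^ 8 * (-80)) * O8 k' := by
  unfold GG
  rw [Matrix.det_smul_of_tower, Fintype.card_fin]
  have h := det_eq_hdet (fun i j : Fin 8 => om (Fin.castAdd k' i) (Fin.castAdd k' j))
    (fun i j k l => wedge2_rel _ _ _ _) (fun i j l => wedge2_self_left _ _ _)
    (fun i k j => wedge2_self_right _ _ _) (fun a b i j => ((R0 a b i j : ℤ) : ℂ))
  rw [h]
  have h2 : hdet (fun a b i j => ((R0 a b i j : ℤ) : ℂ)) = -80 := by
    have := hdet_map (Int.castRingHom ℂ) R0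
    rw [hdet_R0] at this
    simpa using this
  rw [h2, smul_smul, Algebra.smul_def]
  rfl

theorem O8_mul (i j : Fin 8) : O8 k' * om (Fin.castAdd k' i) (Fin.castAdd k' j) = 0 := by
  unfold O8
  rw [← Finset.mul_prod_erase _ _ (Finset.mem_univ i), mul_right_comm]
  have : om (Fin.castAdd k' i) (Fin.castAdd k' i) * om (Fin.castAdd k' i) (Fin.castAdd k' j) = 0 :=
    wedge2_self_left _ _ _
  rw [this, zero_mul]

theorem O8_GG (q : ℂ) (a b : Fin 8) : O8 k' * GG k' q a b = 0 := by
  unfold GG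
  rw [Matrix.smul_apply, Matrix.of_apply, mul_smul_comm, Finset.mul_sum]
  have : ∀ i : Fin 8, O8 k' * ∑ j, ((R0 a b i j : ℤ) : ℂ) •
      om (Fin.castAdd k' i) (Fin.castAdd k' j) = 0 := by
    intro i
    rw [Finset.mul_sum]
    refine Finset.sum_eq_zero fun j _ => ?_
    rw [mul_smul_comm, O8_mul, smul_zero]
  rw [Finset.sum_eq_zero fun i _ => this i, smul_zero]

theorem YY_zero (q : ℂ) (h : k' = 0) : YY k' q = 0 := by
  subst h
  simp [YY]

theorem YY_pow (q : ℂ) : YY k' q ^ k' = algebraMap ℂ (FormAlg (8 + k')) (q ^ k' * k'.factorial) *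
    ∏ i : Fin k', om (Fin.natAdd 8 i) (Fin.natAdd 8 i) := by
  unfold YY
  have h := (pow_sum_sq_zero (fun i : Fin k' => om (Fin.natAdd 8 i) (Fin.natAdd 8 i))
    (fun i => wedge2_self_left _ _ _) Finset.univ).1
  rw [Finset.card_univ, Fintype.card_fin] at h
  rw [smul_pow, h, Algebra.smul_def, map_mul, map_natCast]
  ring

theorem MM_zero (q : ℂ) : MM r' k' q 0 = blk r' (GG k' q) (YY k' q) := by
  ext1 a b
  obtain ⟨a, rfl⟩ := finSumFinEquiv.surjective a
  obtain ⟨b, rfl⟩ := finSumFinEquiv.surjective b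
  unfold MM blk
  rw [Matrix.of_apply, Matrix.submatrix_apply, Equiv.symm_apply_apply, Equiv.symm_apply_apply,
    ← finSumFinEquiv.sum_comp]
  have e1 : ∀ i : Fin 8 ⊕ Fin k', ∑ j : Fin (8 + k'),
      (q * (((T0 (finSumFinEquiv a) (finSumFinEquiv b) (finSumFinEquiv i) j : ℤ) : ℂ) +
        0 * ((if (finSumFinEquiv a : Fin (8 + r')) = finSumFinEquiv b then 1 else 0) *
          (if finSumFinEquiv i = j then 1 else 0)))) • om (finSumFinEquiv i) j =
      ∑ j : Fin 8 ⊕ Fin k', (q * ((T0s a b i j : ℤ) : ℂ)) •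
        om (finSumFinEquiv i) (finSumFinEquiv j) := by
    intro i
    rw [← finSumFinEquiv.sum_comp]
    refine Finset.sum_congr rfl fun j _ => ?_
    simp only [T0, Equiv.symm_apply_apply, zero_mul, add_zero]
  rw [Finset.sum_congr rfl fun i _ => e1 i]
  rcases a with a | a <;> rcases b with b | b <;>
    simp only [Fintype.sum_sum_type, T0s, Int.cast_zero, mul_zero, zero_smul,
      Finset.sum_const_zero, add_zero, zero_add, finSumFinEquiv_apply_left,
      finSumFinEquiv_apply_right, Matrix.fromBlocks_apply₁₁, Matrix.fromBlocks_apply₁₂,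
      Matrix.fromBlocks_apply₂₁, Matrix.fromBlocks_apply₂₂, Matrix.zero_apply]
  · unfold GG
    rw [Matrix.smul_apply, Matrix.of_apply, Finset.smul_sum]
    refine Finset.sum_congr rfl fun i _ => ?_
    rw [Finset.smul_sum]
    refine Finset.sum_congr rfl fun j _ => ?_
    rw [smul_smul]
  · by_cases hab : a = b
    · subst hab
      rw [Matrix.diagonal_apply_eq]
      by_cases ha : (a : ℕ) = 0
      · rw [if_pos ha]
        unfold YY
        rw [Finset.smul_sum]
        refine Finset.sum_congr rfl fun i _ => ?_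
        rw [Finset.sum_eq_single i]
        · simp [ha]
        · intro j _ hj
          rw [if_neg (fun h => hj h.2.2.symm)]
          simp
        · simp
      · rw [if_neg ha]
        refine Finset.sum_eq_zero fun i _ => Finset.sum_eq_zero fun j _ => ?_
        rw [if_neg (fun h => ha h.1)]
        simp
    · rw [Matrix.diagonal_apply_ne _ hab]
      refine Finset.sum_eq_zero fun i _ => Finset.sum_eq_zero fun j _ => ?_
      rw [if_neg]
      · simp
      · rintro ⟨h1, h2, _⟩
        exact hab (Fin.ext (h1.trans h2.symm))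

/-- evaluation on the oriented real frame -/
noncomputable def LL (n : ℕ) : FormAlg n →ₗ[ℂ] ℂ :=
  (evalForm (realFrame fun i : Fin n => (Pi.single i 1 : Cn n))).comp
    (Subalgebra.center ℂ (Forms n)).val.toLinearMap

theorem LL_apply {n : ℕ} (u : FormAlg n) :
    LL n u = evalForm (realFrame fun i : Fin n => (Pi.single i 1 : Cn n)) u.1 := rfl

/-- the value of the hook Schur form for `δ = 0`. -/
theorem LL_zero (hrk : r' = 0 → k' = 0) (q : ℂ) : LL (8 + k') (schur (MM r' k' q 0) (hook k')) =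
    (-80 * k'.factorial) * (q * (-2 * Complex.I)) ^ (8 + k') := by
  rw [MM_zero, schur_blk r' k' hrk (GG k' q) (O8 k') (YY k' q)
    (algebraMap ℂ (FormAlg (8 + k')) (q ^ 8 * (-80))) (YY_zero q) (GG_det q) (O8_GG q), YY_pow]
  have h : algebraMap ℂ (FormAlg (8 + k')) (q ^ 8 * (-80)) * O8 k' *
      (algebraMap ℂ (FormAlg (8 + k')) (q ^ k' * k'.factorial) *
        ∏ i : Fin k', om (Fin.natAdd 8 i) (Fin.natAdd 8 i)) =
      ((q ^ 8 * (-80)) * (q ^ k' * k'.factorial)) • ∏ i : Fin (8 + k'), wedge2 (dzf i) (dzbf i) := by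
    rw [Fin.prod_univ_add, Algebra.smul_def, map_mul (algebraMap ℂ (FormAlg (8 + k')))
      (q ^ 8 * (-80)) (q ^ k' * k'.factorial)]
    unfold O8 om
    ring
  rw [h, map_smul, LL_apply, eval_top, smul_eq_mul, mul_pow q, pow_add q]
  ring

end value

end Pool.Agent.Y240.Gr
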