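import Pool.Agent.Y240.Gr.Final

set_option autoImplicit false
set_option linter.unusedSectionVars false

namespace Pool.Agent.Y240.Gr

open Finset Filter Topology
open scoped ContDiff ComplexOrder Matrix
open Pool.Agent.W517.Gr (Cn sf R0 qf qf_nonneg ip R0_symm mul_star_self ip_self FormAlg Forms wedge2
  dzf dzbf hdet hdet_R0 hdet_map det_eq_hdet wedge2_rel wedge2_self_left wedge2_self_right evalForm
  realFrame eval_top curvatureForm chernForm chernCurvature IsMetricOnO1 GriffithsPositiveAt inChart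
  Cutoff exists_Cutoff CForm)

section value

variable {r' k' : ℕ}

/-- the polynomial matrix -/
noncomputable def PP (r' k' : ℕ) (q : ℂ) :
    Matrix (Fin (8 + r')) (Fin (8 + r')) (Polynomial (FormAlg (8 + k'))) :=
  (MM r' k' q 0).map Polynomial.C +
    Matrix.diagonal fun _ => Polynomial.X * Polynomial.C (q • ∑ i, om i i)

theorem PP_map (q δ : ℂ) : (PP r' k' q).map
    (Polynomial.evalRingHom (algebraMap ℂ (FormAlg (8 + k')) δ)) = MM r' k' q δ := by
  ext1 a b
  rw [Matrix.map_apply]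
  unfold PP
  rw [Matrix.add_apply, Matrix.map_apply, map_add]
  have h1 : Polynomial.evalRingHom (algebraMap ℂ (FormAlg (8 + k')) δ)
      (Polynomial.C (MM r' k' q 0 a b)) = MM r' k' q 0 a b := by simp
  have h2 : Polynomial.evalRingHom (algebraMap ℂ (FormAlg (8 + k')) δ)
      ((Matrix.diagonal fun _ => Polynomial.X * Polynomial.C (q • ∑ i, om i i) :
        Matrix (Fin (8 + r')) (Fin (8 + r')) (Polynomial (FormAlg (8 + k')))) a b) =
      (if a = b then (1 : ℂ) else 0) • (δ • (q • ∑ i, om i i)) := by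
    by_cases h : a = b
    · subst h
      rw [Matrix.diagonal_apply_eq, if_pos rfl, one_smul, map_mul, Polynomial.coe_evalRingHom,
        Polynomial.eval_X, Polynomial.eval_C, Algebra.smul_def δ]
    · rw [Matrix.diagonal_apply_ne _ h, if_neg h, map_zero, zero_smul]
  rw [h1, h2]
  unfold MM
  rw [Matrix.of_apply, Matrix.of_apply, smul_smul, smul_smul, Finset.smul_sum,
    ← Finset.sum_add_distrib]
  refine Finset.sum_congr rfl fun i _ => ?_
  have h3 : ((if a = b then (1 : ℂ) else 0) * δ * q) • om i i = ∑ j : Fin (8 + k'),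
      ((if a = b then (1 : ℂ) else 0) * δ * q * (if i = j then 1 else 0)) • om i j := by
    rw [Finset.sum_eq_single i]
    · simp
    · intro j _ hj
      rw [if_neg (Ne.symm hj), mul_zero, zero_smul]
    · simp
  rw [h3, ← Finset.sum_add_distrib]
  refine Finset.sum_congr rfl fun j _ => ?_
  rw [← add_smul]
  congr 1
  ring

theorem continuous_LL (q : ℂ) {k : ℕ} (lam : Fin k → ℕ) :
    Continuous fun δ : ℝ => LL (8 + k') (schur (MM r' k' q (δ : ℂ)) lam) := by
  have h : (fun δ : ℝ => LL (8 + k') (schur (MM r' k' q (δ : ℂ)) lam)) = fun δ : ℝ =>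
      ∑ i ∈ Finset.range ((schur (PP r' k' q) lam).natDegree + 1),
        ((δ : ℂ)) ^ i * LL (8 + k') ((schur (PP r' k' q) lam).coeff i) := by
    funext δ
    rw [← PP_map, schur_map, Polynomial.coe_evalRingHom, Polynomial.eval_eq_sum_range, map_sum]
    refine Finset.sum_congr rfl fun i _ => ?_
    rw [← map_pow, mul_comm, ← Algebra.smul_def, map_smul, smul_eq_mul]
  rw [h]
  refine continuous_finsetSum _ fun i _ => ?_
  exact (Complex.continuous_ofReal.pow i).mul continuous_const

theorem ip_single (i j : Fin (8 + k')) :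
    ip (Pi.single i (1 : ℂ) : Cn (8 + k')) (Pi.single j (1 : ℂ)) = if i = j then 1 else 0 := by
  unfold ip
  rw [Finset.sum_eq_single i]
  · by_cases hij : i = j
    · subst hij; simp
    · simp [hij]
  · intro k _ hk
    simp [hk]
  · simp

theorem curv_MM {τ η : ℝ} (c : Cutoff τ η) (N δ : ℝ) :
    (Complex.I / (2 * Real.pi)) • curvatureForm (h0 c (S := Sg (r' := r') (k' := k') N δ)) 0 =
      MM r' k' (Complex.I / (2 * Real.pi) * N) δ := by
  ext1 a b
  unfold MM curvatureForm
  rw [Matrix.smul_apply, Matrix.of_apply, Matrix.of_apply, Finset.smul_sum]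
  refine Finset.sum_congr rfl fun i _ => ?_
  rw [Finset.smul_sum]
  refine Finset.sum_congr rfl fun j _ => ?_
  rw [smul_smul, curv_h0_zero, Matrix.add_apply, Matrix.smul_apply, smul_eq_mul, sf_Sg, ip_single]
  have h : ∑ i', ∑ j', ((T0 a b i' j' : ℤ) : ℂ) * ((Pi.single i (1 : ℂ) : Cn (8 + k')) i' *
      star ((Pi.single j (1 : ℂ) : Cn (8 + k')) j')) = ((T0 a b i j : ℤ) : ℂ) := by
    rw [Finset.sum_eq_single i, Finset.sum_eq_single j]
    · simp
    · intro j' _ hj'
      simp [hj']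
    · simp
    · intro i' _ hi'
      refine Finset.sum_eq_zero fun j' _ => ?_
      simp [Pi.single_apply, hi']
    · simp
  rw [h, Matrix.one_apply]
  unfold om
  congr 1
  push_cast
  ring

theorem exists_all (r' k' : ℕ) (hrk : r' = 0 → k' = 0) (M : ℝ) :
    ∃ h : Cn (8 + k' + 1) → Matrix (Fin (8 + r')) (Fin (8 + r')) ℂ, IsMetricOnO1 h ∧
      (∀ (i : Fin (8 + k' + 1)) (w : Cn (8 + k')), GriffithsPositiveAt (inChart i h) w) ∧
      (LL (8 + k') (schur ((Complex.I / (2 * Real.pi)) • curvatureForm (inChart 0 h) 0)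
        (hook k'))).re < -M ∧
      ∃ N δ : ℝ, (Complex.I / (2 * Real.pi)) • curvatureForm (inChart 0 h) 0 =
        MM r' k' (Complex.I / (2 * Real.pi) * N) δ := by
  set n := 8 + k' with hn
  set N : ℝ := max 1 (Real.pi ^ n * (|M| + 1)) with hN
  have hN1 : 1 ≤ N := le_max_left _ _
  have hN2 : Real.pi ^ n * (|M| + 1) ≤ N := le_max_right _ _
  set q : ℂ := Complex.I / (2 * Real.pi) * N with hq
  have hpi : (Real.pi : ℂ) ≠ 0 := by exact_mod_cast Real.pi_ne_zero
  have hqI : q * (-2 * Complex.I) = ((N / Real.pi : ℝ) : ℂ) := by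
    rw [hq]
    push_cast
    field_simp
    rw [Complex.I_sq]
    ring
  have hval : LL n (schur (MM r' k' q ((0 : ℝ) : ℂ)) (hook k')) =
      ((-(80 * k'.factorial * (N / Real.pi) ^ n) : ℝ) : ℂ) := by
    rw [Complex.ofReal_zero, LL_zero hrk, hqI]
    push_cast
    ring
  have hlt : (LL n (schur (MM r' k' q ((0 : ℝ) : ℂ)) (hook k'))).re < -M := by
    rw [hval, Complex.ofReal_re, neg_lt_neg_iff]
    have h1 : N ≤ N ^ n := le_self_pow₀ hN1 (by omega)
    have h2 : |M| + 1 ≤ (N / Real.pi) ^ n := by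
      rw [div_pow, le_div_iff₀ (by positivity), mul_comm]
      exact hN2.trans h1
    have h3 : (1 : ℝ) ≤ k'.factorial := by exact_mod_cast Nat.factorial_pos k'
    have h4 : M ≤ |M| := le_abs_self M
    have h5 : 0 ≤ |M| := abs_nonneg M
    have h6 : (1 : ℝ) ≤ 80 * k'.factorial := by linarith
    calc M < |M| + 1 := by linarith
      _ ≤ (N / Real.pi) ^ n := h2
      _ ≤ 80 * k'.factorial * (N / Real.pi) ^ n := le_mul_of_one_le_left (by linarith) h6
  have hcont : Continuous fun δ : ℝ => (LL n (schur (MM r' k' q (δ : ℂ)) (hook k'))).re :=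
    Complex.continuous_re.comp (continuous_LL q (hook k'))
  have hev : ∀ᶠ δ : ℝ in 𝓝 (0 : ℝ), (LL n (schur (MM r' k' q (δ : ℂ)) (hook k'))).re < -M :=
    hcont.continuousAt.eventually_lt continuousAt_const hlt
  obtain ⟨ε, hε, hball⟩ := Metric.eventually_nhds_iff.1 hev
  have hδ0 : 0 < ε / 2 := by positivity
  have hδ : (LL n (schur (MM r' k' q ((ε / 2 : ℝ) : ℂ)) (hook k'))).re < -M := by
    apply hball
    rw [Real.dist_eq, sub_zero, abs_of_pos hδ0]
    linarith
  set δ : ℝ := ε / 2 with hδdef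
  set δ' : ℝ := min 1 (N * δ) with hδ'
  have hδ'0 : 0 < δ' := lt_min one_pos (by positivity)
  have hδ'1 : δ' ≤ 1 := min_le_left _ _
  have hδ'2 : δ' ≤ N * δ := min_le_right _ _
  obtain ⟨K, hK⟩ := exists_Bdd (Sg (r' := r') (k' := k') N δ)
  have hK0 : 0 ≤ K := hK.1
  have hτ : 0 < δ' / (4 * (K + 1)) := by positivity
  have hτe : (K + 1) * (δ' / (4 * (K + 1))) = δ' / 4 := by
    field_simp
  obtain ⟨c⟩ := exists_Cutoff hτ hτ
  have hτB : K * (δ' / (4 * (K + 1))) < 1 := by nlinarith
  refine ⟨HH c (Sg N δ), isMetric_HH c (Sg_symm N δ) hK hτ hτB,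
    griffiths_chart c (Sg_symm N δ) hK hτ hτB hδ'0 hδ'1 (by nlinarith)
      (Sg_lower (by linarith) hδ'2), ?_, N, δ, ?_⟩
  · rw [inChart_zero, curv_MM]
    exact hδ
  · rw [inChart_zero, curv_MM]

end value

end Pool.Agent.Y240.Gr
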