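import Pool.Agent.W517.Gr.Proj

/-! The metrics of `Pool.Agent.W517.Gr` for all ranks and dimensions: tensors
`S : Fin r → Fin r → Fin n → Fin n → ℝ`. -/

set_option autoImplicit false

namespace Pool.Agent.Y240.Gr

open Finset Filter Topology
open scoped ContDiff ComplexOrder Matrix
open Pool.Agent.W517.Gr hiding nsq nsq_nonneg nsq_pos nsq_ip diff_nsq contDiff_nsq fun_nsq Kf gf contDiff_Kf contDiff_gf diff_κ diff_κ1 mdz'_Kf Lev mdz''_mdz'_Kf mdz'_gf mdz''_gf mdz''_mdz'_gf curv_gf Kf_herm gf_herm Lev_herm h0 curv_h0 griffiths_h0 sx l1_sq en en_nonneg en_sq l1_le norm_sx_le norm_ip_le dot_one dot_gf dot_Lev κ_bound gf_posDef FS_real FS_lower T2_aux fin_aux main_estimate HH gf_zero gf_far gf_one_near contDiffAt_HH isMetric_HH griffiths_chart inChart_zero curv_h0_zero contDiff_h0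

variable {n r : ℕ}

/-- squared norm -/
noncomputable def nsq (x : Fin n → ℂ) : ℝ := ∑ i, Complex.normSq (x i)

theorem nsq_nonneg (x : Fin n → ℂ) : 0 ≤ nsq x := Finset.sum_nonneg fun _ _ => Complex.normSq_nonneg _

theorem nsq_pos {x : Fin n → ℂ} (hx : x ≠ 0) : 0 < nsq x := by
  obtain ⟨i, hi⟩ := Function.ne_iff.1 hx
  refine Finset.sum_pos' (fun i _ => Complex.normSq_nonneg _) ⟨i, Finset.mem_univ i, ?_⟩
  exact Complex.normSq_pos.2 hi

section chart

variable {τ η : ℝ} (c : Cutoff τ η) (S : Fin r → Fin r → Fin n → Fin n → ℝ)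


theorem nsq_ip (w : Cn n) : ((nsq w : ℝ) : ℂ) = ip w w := by
  rw [ip_self]; rfl

theorem diff_nsq (z : Cn n) : DifferentiableAt ℝ nsq z := by
  have h : (nsq : Cn n → ℝ) = fun w : Cn n => (ip w w).re := by
    funext w
    rw [← nsq_ip, Complex.ofReal_re]
  rw [h]
  exact (Complex.reCLM.differentiableAt).comp z (diff_ip_diag z)

theorem contDiff_nsq : ContDiff ℝ ∞ (nsq : Cn n → ℝ) := by
  have h : (nsq : Cn n → ℝ) = fun w : Cn n => (ip w w).re := by
    funext w
    rw [← nsq_ip, Complex.ofReal_re]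
  rw [h]
  exact Complex.reCLM.contDiff.comp contDiff_ip

theorem fun_nsq : (fun w : Cn n => ((nsq w : ℝ) : ℂ)) = fun w => ip w w := by
  funext w; exact nsq_ip w

/-- The perturbation. -/
noncomputable def Kf (w : Cn n) : Matrix (Fin r) (Fin r) ℂ := ((c.κ (nsq w) : ℝ) : ℂ) • sf S w w

/-- The metric before twisting. -/
noncomputable def gf (w : Cn n) : Matrix (Fin r) (Fin r) ℂ := 1 - Kf c S w

theorem contDiff_Kf (α β : Fin r) : ContDiff ℝ ∞ fun w => Kf c S w α β := by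
  simp only [Kf, Matrix.smul_apply, smul_eq_mul]
  refine ContDiff.mul ?_ ?_
  · exact Complex.ofRealCLM.contDiff.comp (c.smooth.comp contDiff_nsq)
  · simp only [sf, Matrix.of_apply]
    refine ContDiff.sum fun i _ => ContDiff.sum fun j _ => ?_
    refine contDiff_const.mul (ContDiff.mul ?_ ?_)
    · exact (coordL i).contDiff
    · exact (Complex.conjCLE.toContinuousLinearMap.comp (coordL j)).contDiff

theorem contDiff_gf (α β : Fin r) : ContDiff ℝ ∞ fun w => gf c S w α β := by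
  simp only [gf, Matrix.sub_apply]
  exact contDiff_const.sub (contDiff_Kf c S α β)

theorem diff_κ (z : Cn n) : DifferentiableAt ℝ (fun w => ((c.κ (nsq w) : ℝ) : ℂ)) z :=
  Complex.ofRealCLM.differentiableAt.comp z ((c.d1 _).differentiableAt.comp z (diff_nsq z))

theorem diff_κ1 (z : Cn n) : DifferentiableAt ℝ (fun w => ((c.κ1 (nsq w) : ℝ) : ℂ)) z :=
  Complex.ofRealCLM.differentiableAt.comp z ((c.d2 _).differentiableAt.comp z (diff_nsq z))

theorem mdz'_Kf (z ξ : Cn n) : mdz' (Kf c S) z ξ =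
    (((c.κ1 (nsq z) : ℝ) : ℂ) * ip ξ z) • sf S z z + ((c.κ (nsq z) : ℝ) : ℂ) • sf S ξ z := by
  have h := mdz'_smul (diff_κ c z) (fun α β => diff_sf_diag S α β z) ξ
  rw [dz'_real_comp (diff_nsq z) (c.d1 _), fun_nsq, dz'_ip_diag, mdz'_sf] at h
  exact h

/-- the Levi form of the perturbation. -/
noncomputable def Lev (z ξ η' : Cn n) : Matrix (Fin r) (Fin r) ℂ :=
  (((c.κ2 (nsq z) : ℝ) : ℂ) * ip z η' * ip ξ z + ((c.κ1 (nsq z) : ℝ) : ℂ) * ip ξ η') • sf S z z +
    (((c.κ1 (nsq z) : ℝ) : ℂ) * ip ξ z) • sf S z η' +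
    ((((c.κ1 (nsq z) : ℝ) : ℂ) * ip z η') • sf S ξ z + ((c.κ (nsq z) : ℝ) : ℂ) • sf S ξ η')

theorem mdz''_mdz'_Kf (z ξ η' : Cn n) :
    mdz'' (fun w => mdz' (Kf c S) w ξ) z η' = Lev c S z ξ η' := by
  simp only [mdz'_Kf]
  have h1 : DifferentiableAt ℝ (fun w => ((c.κ1 (nsq w) : ℝ) : ℂ) * ip ξ w) z :=
    (diff_κ1 c z).mul (diff_ip_right ξ z)
  rw [mdz''_add, mdz''_smul h1 (fun α β => diff_sf_diag S α β z),
    mdz''_smul (diff_κ c z) (fun α β => diff_sf_right S ξ α β z),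
    dz''_mul (diff_κ1 c z) (diff_ip_right ξ z), dz''_real_comp (diff_nsq z) (c.d2 _),
    dz''_real_comp (diff_nsq z) (c.d1 _), fun_nsq, dz''_ip_diag, dz''_ip_right, mdz''_sf,
    mdz''_sf_right]
  · rfl
  · intro α β
    exact h1.mul (diff_sf_diag S α β z)
  · intro α β
    exact (diff_κ c z).mul (diff_sf_right S ξ α β z)

theorem mdz'_gf (z ξ : Cn n) : mdz' (gf c S) z ξ = -mdz' (Kf c S) z ξ := by
  ext α β
  simp only [mdz', gf, Matrix.of_apply, Matrix.sub_apply, Matrix.neg_apply]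
  rw [dz'_sub (differentiableAt_const _) ((contDiff_Kf c S α β).differentiable (by simp)).differentiableAt,
    dz'_const, zero_sub]

theorem mdz''_gf (z ξ : Cn n) : mdz'' (gf c S) z ξ = -mdz'' (Kf c S) z ξ := by
  ext α β
  simp only [mdz'', gf, Matrix.of_apply, Matrix.sub_apply, Matrix.neg_apply]
  rw [dz''_sub (differentiableAt_const _) ((contDiff_Kf c S α β).differentiable (by simp)).differentiableAt,
    dz''_const, zero_sub]

theorem mdz''_mdz'_gf (z ξ η' : Cn n) :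
    mdz'' (fun w => mdz' (gf c S) w ξ) z η' = -Lev c S z ξ η' := by
  rw [← mdz''_mdz'_Kf]
  simp only [mdz'_gf]
  ext α β
  simp only [mdz'', Matrix.of_apply, Matrix.neg_apply]
  rw [dz''_neg]

theorem curv_gf (z ξ η' : Cn n) (hdet : (gf c S z).det ≠ 0) :
    chernCurvature (gf c S) z ξ η' * gf c S z =
      Lev c S z ξ η' + mdz' (gf c S) z ξ * (gf c S z)⁻¹ * mdz'' (gf c S) z η' := by
  rw [chernCurvature_mul (fun α β => ((contDiff_gf c S α β).differentiable (by simp)).differentiableAt)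
    _ hdet, mdz''_mdz'_gf, neg_neg]
  intro α β
  exact differentiableAt_dz' (two_of_infty (contDiff_gf c S α β) _) ξ

variable {S}

theorem Kf_herm (hsym : ∀ α β i j, S β α j i = S α β i j) (w : Cn n) : (Kf c S w)ᴴ = Kf c S w := by
  rw [Kf, Matrix.conjTranspose_smul, sf_conjTranspose S hsym, Complex.star_def, Complex.conj_ofReal]

theorem gf_herm (hsym : ∀ α β i j, S β α j i = S α β i j) (w : Cn n) : (gf c S w)ᴴ = gf c S w := by
  rw [gf, Matrix.conjTranspose_sub, Matrix.conjTranspose_one, Kf_herm c hsym]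

theorem Lev_herm (hsym : ∀ α β i j, S β α j i = S α β i j) (z ξ : Cn n) :
    (Lev c S z ξ ξ)ᴴ = Lev c S z ξ ξ := by
  unfold Lev
  simp only [Matrix.conjTranspose_add, Matrix.conjTranspose_smul, sf_conjTranspose S hsym,
    star_add, star_mul', ip_star, Complex.star_def, Complex.conj_ofReal]
  rw [mul_right_comm _ (ip ξ z) (ip z ξ)]
  abel

/-- twisted metric in the chart `U_0`. -/
noncomputable def h0 (w : Cn n) : Matrix (Fin r) (Fin r) ℂ := fs w • gf c S w

theorem curv_h0 (z ξ η' : Cn n) (hdet : (gf c S z).det ≠ 0) :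
    chernCurvature (h0 c (S := S)) z ξ η' = FS z ξ η' • 1 + chernCurvature (gf c S) z ξ η' := by
  have h := chernCurvature_twist (u := fs) (h := gf c S) (z := z)
    (two_of_infty contDiff_fs _) (fs_ne z)
    (fun α β => two_of_infty (contDiff_gf c S α β) _) hdet ξ η'
  rw [fs_curv] at h
  exact h

/-- positivity criterion. -/
theorem griffiths_h0 (hsym : ∀ α β i j, S β α j i = S α β i j) (z : Cn n)
    (hg : (gf c S z).PosDef)
    (hmain : ∀ ξ : Cn n, ξ ≠ 0 → (FS z ξ ξ • gf c S z + Lev c S z ξ ξ).PosDef) :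
    GriffithsPositiveAt (h0 c (S := S)) z := by
  intro ξ hξ
  have hdet : (gf c S z).det ≠ 0 := hg.det_pos.ne'
  have hfs : 0 < fs z := by
    unfold fs
    rw [ip_self]
    have h1 : (0 : ℝ) < (1 + ∑ i, Complex.normSq (z i))⁻¹ := by
      have := Finset.sum_nonneg fun (i : Fin n) (_ : i ∈ Finset.univ) => Complex.normSq_nonneg (z i)
      positivity
    exact_mod_cast h1
  have e : chernCurvature (h0 c (S := S)) z ξ ξ * h0 c (S := S) z = fs z •
      (FS z ξ ξ • gf c S z + Lev c S z ξ ξ +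
        mdz' (gf c S) z ξ * (gf c S z)⁻¹ * (mdz' (gf c S) z ξ)ᴴ) := by
    rw [curv_h0 c z ξ ξ hdet, h0, Matrix.mul_smul, add_mul, curv_gf c S z ξ ξ hdet, smul_mul_assoc,
      one_mul, ← mdz''_eq_conjTranspose (gf_herm c hsym)
        (fun α β => ((contDiff_gf c S α β).differentiable (by simp)).differentiableAt), ← add_assoc]
  rw [e]
  refine Matrix.PosDef.smul ?_ hfs
  exact (hmain ξ hξ).add_posSemidef (hg.inv.posSemidef.mul_mul_conjTranspose_same _)

end chart

/-- the form `x^* S(a, b) x`. -/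
noncomputable def sx (S : Fin r → Fin r → Fin n → Fin n → ℝ) (x : Fin r → ℂ) (a b : Fin n → ℂ) : ℂ :=
  star x ⬝ᵥ (sf S a b *ᵥ x)

theorem l1_sq (y : Fin n → ℂ) : (∑ a, ‖y a‖) ^ 2 ≤ n * nsq y := by
  have := sq_sum_le_card_mul_sum_sq (s := (Finset.univ : Finset (Fin n))) (f := fun a => ‖y a‖)
  simp only [Finset.card_univ, Fintype.card_fin] at this
  simp only [nsq, Complex.normSq_eq_norm_sq]
  exact this

/-- Euclidean norm -/
noncomputable def en (y : Fin n → ℂ) : ℝ := Real.sqrt (nsq y)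

theorem en_nonneg (y : Fin n → ℂ) : 0 ≤ en y := Real.sqrt_nonneg _

theorem en_sq (y : Fin n → ℂ) : en y ^ 2 = nsq y := Real.sq_sqrt (nsq_nonneg y)

theorem l1_le (y : Fin n → ℂ) : ∑ a, ‖y a‖ ≤ Real.sqrt n * en y := by
  rw [en, ← Real.sqrt_mul (by positivity)]
  exact Real.le_sqrt_of_sq_le (l1_sq y)

/-- `S` is bounded by `K` as a form. -/
def Bdd (S : Fin r → Fin r → Fin n → Fin n → ℝ) (K : ℝ) : Prop :=
  0 ≤ K ∧ ∀ (x : Fin r → ℂ) (a b : Fin n → ℂ), ‖sx S x a b‖ ≤ K * (nsq x * (en a * en b))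

theorem exists_Bdd (S : Fin r → Fin r → Fin n → Fin n → ℝ) : ∃ K, Bdd S K := by
  obtain ⟨B, hB0, hB⟩ : ∃ B : ℝ, 0 ≤ B ∧ ∀ a b i j, |S a b i j| ≤ B := by
    refine ⟨∑ a, ∑ b, ∑ i, ∑ j, |S a b i j|, by positivity, fun a b i j => ?_⟩
    have h1 : |S a b i j| ≤ ∑ j, |S a b i j| :=
      Finset.single_le_sum (f := fun j => |S a b i j|) (fun _ _ => abs_nonneg _) (Finset.mem_univ j)
    have h2 : ∑ j, |S a b i j| ≤ ∑ i, ∑ j, |S a b i j| :=
      Finset.single_le_sum (f := fun i => ∑ j, |S a b i j|) (fun _ _ => by positivity)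
        (Finset.mem_univ i)
    have h3 : ∑ i, ∑ j, |S a b i j| ≤ ∑ b, ∑ i, ∑ j, |S a b i j| :=
      Finset.single_le_sum (f := fun b => ∑ i, ∑ j, |S a b i j|) (fun _ _ => by positivity)
        (Finset.mem_univ b)
    have h4 : ∑ b, ∑ i, ∑ j, |S a b i j| ≤ ∑ a, ∑ b, ∑ i, ∑ j, |S a b i j| :=
      Finset.single_le_sum (f := fun a => ∑ b, ∑ i, ∑ j, |S a b i j|) (fun _ _ => by positivity)
        (Finset.mem_univ a)
    linarith
  refine ⟨B * (r * n), by positivity, fun x a b => ?_⟩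
  have h0 : sx S x a b =
      ∑ α, ∑ β, ∑ i, ∑ j, (S α β i j : ℂ) * (star (x α) * x β * (a i * star (b j))) := by
    simp only [sx, dotProduct, Matrix.mulVec, sf, Matrix.of_apply, Pi.star_apply, Finset.mul_sum,
      Finset.sum_mul]
    refine Finset.sum_congr rfl fun a _ => Finset.sum_congr rfl fun b _ =>
      Finset.sum_congr rfl fun i _ => Finset.sum_congr rfl fun j _ => ?_
    ring
  have h1 : ‖sx S x a b‖ ≤ ∑ α, ∑ β, ∑ i, ∑ j, (B * (‖x α‖ * ‖x β‖ * (‖a i‖ * ‖b j‖))) := by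
    rw [h0]
    refine (norm_sum_le _ _).trans (Finset.sum_le_sum fun α _ => ?_)
    refine (norm_sum_le _ _).trans (Finset.sum_le_sum fun β _ => ?_)
    refine (norm_sum_le _ _).trans (Finset.sum_le_sum fun i _ => ?_)
    refine (norm_sum_le _ _).trans (Finset.sum_le_sum fun j _ => ?_)
    rw [norm_mul, norm_mul, norm_mul, norm_mul, norm_star, norm_star, Complex.norm_real,
      Real.norm_eq_abs]
    have hp : 0 ≤ ‖x α‖ * ‖x β‖ * (‖a i‖ * ‖b j‖) := by positivity
    exact mul_le_mul_of_nonneg_right (hB _ _ _ _) hp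
  have h2 : ∑ α, ∑ β, ∑ i, ∑ j, (B * (‖x α‖ * ‖x β‖ * (‖a i‖ * ‖b j‖))) =
      B * ((∑ α, ‖x α‖) ^ 2 * ((∑ i, ‖a i‖) * (∑ j, ‖b j‖))) := by
    simp only [← Finset.mul_sum, ← Finset.sum_mul]
    ring
  rw [h2] at h1
  refine h1.trans ?_
  have k1 := l1_sq x
  have k2 : (∑ i, ‖a i‖) * (∑ j, ‖b j‖) ≤ (Real.sqrt n * en a) * (Real.sqrt n * en b) := by
    refine mul_le_mul (l1_le a) (l1_le b) (Finset.sum_nonneg fun _ _ => norm_nonneg _) ?_
    have := en_nonneg a; positivity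
  have k3 : (Real.sqrt n * en a) * (Real.sqrt n * en b) = n * (en a * en b) := by
    have := Real.mul_self_sqrt (show (0 : ℝ) ≤ n by positivity)
    linear_combination (en a * en b) * this
  rw [k3] at k2
  calc B * ((∑ α, ‖x α‖) ^ 2 * ((∑ i, ‖a i‖) * (∑ j, ‖b j‖)))
      ≤ B * ((r * nsq x) * (n * (en a * en b))) := by
        refine mul_le_mul_of_nonneg_left (mul_le_mul k1 k2 ?_ ?_) hB0
        · exact mul_nonneg (Finset.sum_nonneg fun _ _ => norm_nonneg _)
            (Finset.sum_nonneg fun _ _ => norm_nonneg _)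
        · have := nsq_nonneg x; positivity
    _ = _ := by ring

section est

theorem norm_ip_le (x y : Fin n → ℂ) : ‖ip x y‖ ≤ en x * en y := by
  have h := norm_ip_sq x y
  have h2 : ‖ip x y‖ ^ 2 ≤ (en x * en y) ^ 2 := by
    rw [mul_pow, en_sq, en_sq]; exact h
  exact le_of_sq_le_sq h2 (mul_nonneg (en_nonneg x) (en_nonneg y))

theorem dot_one (x : Fin r → ℂ) : star x ⬝ᵥ x = ((nsq x : ℝ) : ℂ) := by
  simp only [dotProduct, Pi.star_apply, nsq]
  push_cast
  refine Finset.sum_congr rfl fun i _ => ?_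
  rw [← mul_star_self, mul_comm]

variable {τ η : ℝ} (c : Cutoff τ η) {S : Fin r → Fin r → Fin n → Fin n → ℝ}

theorem dot_gf (x : Fin r → ℂ) (z : Fin n → ℂ) : star x ⬝ᵥ (gf c S z *ᵥ x) =
    ((nsq x : ℝ) : ℂ) - ((c.κ (nsq z) : ℝ) : ℂ) * sx S x z z := by
  rw [gf, Kf, Matrix.sub_mulVec, Matrix.one_mulVec, dotProduct_sub, dot_one, Matrix.smul_mulVec,
    dotProduct_smul, smul_eq_mul, sx]

theorem dot_Lev (x : Fin r → ℂ) (z ξ : Fin n → ℂ) : star x ⬝ᵥ (Lev c S z ξ ξ *ᵥ x) =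
    (((c.κ2 (nsq z) : ℝ) : ℂ) * ip z ξ * ip ξ z + ((c.κ1 (nsq z) : ℝ) : ℂ) * ip ξ ξ) * sx S x z z +
    (((c.κ1 (nsq z) : ℝ) : ℂ) * ip ξ z) * sx S x z ξ +
    ((((c.κ1 (nsq z) : ℝ) : ℂ) * ip z ξ) * sx S x ξ z + ((c.κ (nsq z) : ℝ) : ℂ) * sx S x ξ ξ) := by
  unfold Lev sx
  simp only [Matrix.add_mulVec, Matrix.smul_mulVec, dotProduct_add, dotProduct_smul, smul_eq_mul]

theorem κ_bound {K : ℝ} (hB : Bdd S K) (hτ : 0 < τ)
    (x : Fin r → ℂ) (z : Fin n → ℂ) :
    c.κ (nsq z) * ‖sx S x z z‖ ≤ K * τ * nsq x := by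
  have hB0 : 0 ≤ K := hB.1
  have hx := nsq_nonneg x
  rcases le_or_gt τ (nsq z) with h | h
  · rw [(c.far _ h).1, zero_mul]
    positivity
  · have h1 := hB.2 x z z
    rw [← sq, en_sq] at h1
    have h2 : K * (nsq x * nsq z) ≤ K * τ * nsq x := by
      have := nsq_nonneg z
      calc K * (nsq x * nsq z) = K * nsq x * nsq z := by ring
        _ ≤ K * nsq x * τ := mul_le_mul_of_nonneg_left h.le (by positivity)
        _ = _ := by ring
    calc c.κ (nsq z) * ‖sx S x z z‖ ≤ 1 * ‖sx S x z z‖ :=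
          mul_le_mul_of_nonneg_right (c.le_one _) (norm_nonneg _)
      _ ≤ _ := by rw [one_mul]; exact h1.trans h2

theorem gf_posDef (hsym : ∀ α β i j, S β α j i = S α β i j) {K : ℝ}
    (hB : Bdd S K) (hτ : 0 < τ) (hτB : K * τ < 1)
    (z : Fin n → ℂ) : (gf c S z).PosDef := by
  refine posDef_of_re (gf_herm c hsym z) fun x hx => ?_
  rw [dot_gf, Complex.sub_re, Complex.ofReal_re, Complex.re_ofReal_mul]
  have h1 := κ_bound c hB hτ x z
  have h2 : c.κ (nsq z) * (sx S x z z).re ≤ c.κ (nsq z) * ‖sx S x z z‖ :=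
    mul_le_mul_of_nonneg_left (Complex.re_le_norm _) (c.nonneg _)
  have h3 := nsq_pos hx
  nlinarith

theorem FS_real (z ξ : Fin n → ℂ) : FS z ξ ξ =
    (((nsq ξ * (1 + nsq z) - ‖ip ξ z‖ ^ 2) / (1 + nsq z) ^ 2 : ℝ) : ℂ) := by
  unfold FS
  have h : ip ξ z * ip z ξ = ((‖ip ξ z‖ ^ 2 : ℝ) : ℂ) := by
    rw [← ip_star ξ z, mul_star_self, Complex.normSq_eq_norm_sq]
  rw [h, ← nsq_ip, ← nsq_ip]
  push_cast
  ring

theorem FS_lower (z ξ : Fin n → ℂ) :
    nsq ξ * (1 - 2 * nsq z) ≤ (nsq ξ * (1 + nsq z) - ‖ip ξ z‖ ^ 2) / (1 + nsq z) ^ 2 ∧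
    (ξ ≠ 0 → 0 < (nsq ξ * (1 + nsq z) - ‖ip ξ z‖ ^ 2) / (1 + nsq z) ^ 2) ∧
    0 ≤ (nsq ξ * (1 + nsq z) - ‖ip ξ z‖ ^ 2) / (1 + nsq z) ^ 2 := by
  have h1 := norm_ip_sq ξ z
  change ‖ip ξ z‖ ^ 2 ≤ nsq ξ * nsq z at h1
  have hz := nsq_nonneg z
  have hξ := nsq_nonneg ξ
  have hp : 0 < (1 + nsq z) ^ 2 := by positivity
  refine ⟨?_, fun h => ?_, ?_⟩
  · rw [le_div_iff₀ hp]
    have h2 : (1 - 2 * nsq z) * (1 + nsq z) ^ 2 ≤ 1 := by nlinarith [mul_nonneg hz hz, mul_nonneg (mul_nonneg hz hz) hz]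
    nlinarith
  · refine div_pos ?_ hp
    have := nsq_pos h
    nlinarith
  · refine div_nonneg ?_ hp.le
    nlinarith

theorem T2_aux {X V t T C : ℝ} (hX : 0 < X) (hV : 0 < V) (ht : 0 ≤ t) (htT : t < T) (hC : 0 ≤ C) :
    X * V * (1 - (2 + C) * T) ≤ V * (1 - 2 * t) * ((1 - C * T) * X) := by
  have hT : 0 < T := lt_of_le_of_lt ht htT
  have h0 : 0 ≤ t * (C * T) := by positivity
  have h1 : 1 - (2 + C) * T ≤ (1 - 2 * t) * (1 - C * T) := by
    have : (1 - 2 * t) * (1 - C * T) = 1 - 2 * t - C * T + 2 * (t * (C * T)) := by ring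
    rw [this]
    linarith
  calc X * V * (1 - (2 + C) * T) ≤ X * V * ((1 - 2 * t) * (1 - C * T)) :=
        mul_le_mul_of_nonneg_left h1 (by positivity)
    _ = _ := by ring

theorem fin_aux {XV F T S C η δ e1 e2 r1 r2 r3 r4 n1 n2 n3 : ℝ}
    (hXV : 0 < XV) (T1 : T ≤ F) (T2 : XV * (1 - S) ≤ T) (hs : S + C * η < δ)
    (a1 : n1 ≤ C * XV * (e2 + e1)) (a2 : n2 ≤ C * XV * e1) (a3 : n3 ≤ C * XV * e1)
    (b1 : -n1 ≤ r1) (b2 : -n2 ≤ r2) (b3 : -n3 ≤ r3) (b4 : (δ - 1) * XV ≤ r4)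
    (hE : C * XV * (3 * e1 + e2) ≤ C * XV * η) : 0 < F + (r1 + r2 + (r3 + r4)) := by
  have h : 0 < XV * (δ - (S + C * η)) := mul_pos hXV (by linarith)
  linarith

/-- **Main estimate.** -/
theorem main_estimate (hsym : ∀ α β i j, S β α j i = S α β i j) {K δ : ℝ}
    (hB : Bdd S K) (hτ : 0 < τ) (hτB : K * τ < 1) (hδ : 0 < δ)
    (hδ1 : δ ≤ 1) (hsmall : (2 + K) * τ + K * η < δ)
    (hS : ∀ (x : Fin r → ℂ) (ξ : Fin n → ℂ), (δ - 1) * (nsq x * nsq ξ) ≤ (sx S x ξ ξ).re)
    (z ξ : Fin n → ℂ) (hξ : ξ ≠ 0) : (FS z ξ ξ • gf c S z + Lev c S z ξ ξ).PosDef := by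
  have hB0 : 0 ≤ K := hB.1
  obtain ⟨f1, f2, f3⟩ := FS_lower z ξ
  have f2' := f2 hξ
  rw [FS_real]
  set F : ℝ := (nsq ξ * (1 + nsq z) - ‖ip ξ z‖ ^ 2) / (1 + nsq z) ^ 2 with hF
  refine posDef_of_re ?_ fun x hx => ?_
  · rw [Matrix.conjTranspose_add, Matrix.conjTranspose_smul, gf_herm c hsym, Lev_herm c hsym,
      Complex.star_def, Complex.conj_ofReal]
  · have hX := nsq_pos hx
    have hV := nsq_pos hξ
    have ht := nsq_nonneg z
    rw [Matrix.add_mulVec, dotProduct_add, Matrix.smul_mulVec, dotProduct_smul, smul_eq_mul,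
      Complex.add_re, Complex.re_ofReal_mul, dot_gf, dot_Lev, Complex.sub_re, Complex.ofReal_re,
      Complex.re_ofReal_mul]
    have hκb := κ_bound c hB hτ x z
    have hκre : c.κ (nsq z) * (sx S x z z).re ≤ c.κ (nsq z) * ‖sx S x z z‖ :=
      mul_le_mul_of_nonneg_left (Complex.re_le_norm _) (c.nonneg _)
    have hlow : (1 - K * τ) * nsq x ≤ nsq x - c.κ (nsq z) * (sx S x z z).re := by nlinarith
    rcases le_or_gt τ (nsq z) with hfar | hnear
    · obtain ⟨k0, k1, k2⟩ := c.far _ hfar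
      rw [k0, k1, k2]
      simp only [Complex.ofReal_zero, zero_mul, add_zero, Complex.zero_re, sub_zero]
      positivity
    · set t := nsq z with htdef
      set X := nsq x with hXdef
      set V := nsq ξ with hVdef
      have s1 : ‖sx S x z z‖ ≤ K * (X * t) := by
        have := hB.2 x z z
        rwa [← sq, en_sq] at this
      have s2 : ‖ip ξ z‖ ≤ en ξ * en z := norm_ip_le ξ z
      have s2' : ‖ip z ξ‖ ≤ en z * en ξ := norm_ip_le z ξ
      have s3 : ‖sx S x z ξ‖ ≤ K * (X * (en z * en ξ)) := hB.2 x z ξ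
      have s4 : ‖sx S x ξ z‖ ≤ K * (X * (en ξ * en z)) := hB.2 x ξ z
      have hez : en z ^ 2 = t := en_sq z
      have heξ : en ξ ^ 2 = V := en_sq ξ
      have hezn := en_nonneg z
      have heξn := en_nonneg ξ
      -- the three error terms
      have E1 : ‖(((c.κ2 t : ℝ) : ℂ) * ip z ξ * ip ξ z + ((c.κ1 t : ℝ) : ℂ) * ip ξ ξ) * sx S x z z‖ ≤
          K * (X * V) * (|t ^ 2 * c.κ2 t| + |t * c.κ1 t|) := by
        rw [norm_mul]
        have a1 : ‖((c.κ2 t : ℝ) : ℂ) * ip z ξ * ip ξ z + ((c.κ1 t : ℝ) : ℂ) * ip ξ ξ‖ ≤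
            |c.κ2 t| * (t * V) + |c.κ1 t| * V := by
          refine (norm_add_le _ _).trans (add_le_add ?_ ?_)
          · rw [norm_mul, norm_mul, Complex.norm_real, Real.norm_eq_abs, mul_assoc]
            refine mul_le_mul_of_nonneg_left ?_ (abs_nonneg _)
            calc ‖ip z ξ‖ * ‖ip ξ z‖ ≤ (en z * en ξ) * (en ξ * en z) :=
                  mul_le_mul s2' s2 (norm_nonneg _) (by positivity)
              _ = t * V := by rw [← hez, ← heξ]; ring
          · rw [norm_mul, Complex.norm_real, Real.norm_eq_abs, ← nsq_ip, Complex.norm_real,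
              Real.norm_of_nonneg (nsq_nonneg ξ)]
        calc _ ≤ (|c.κ2 t| * (t * V) + |c.κ1 t| * V) * (K * (X * t)) :=
              mul_le_mul a1 s1 (norm_nonneg _) (by positivity)
          _ = _ := by
              rw [abs_mul, abs_mul, abs_of_nonneg (by positivity : 0 ≤ t ^ 2), abs_of_nonneg ht]
              ring
      have E2 : ‖(((c.κ1 t : ℝ) : ℂ) * ip ξ z) * sx S x z ξ‖ ≤
          K * (X * V) * |t * c.κ1 t| := by
        rw [norm_mul, norm_mul, Complex.norm_real, Real.norm_eq_abs]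
        calc |c.κ1 t| * ‖ip ξ z‖ * ‖sx S x z ξ‖ ≤
              |c.κ1 t| * (en ξ * en z) * (K * (X * (en z * en ξ))) := by
              refine mul_le_mul (mul_le_mul_of_nonneg_left s2 (abs_nonneg _)) s3 (norm_nonneg _)
                (by positivity)
          _ = _ := by
              rw [abs_mul, abs_of_nonneg ht, ← hez, ← heξ]
              ring
      have E3 : ‖(((c.κ1 t : ℝ) : ℂ) * ip z ξ) * sx S x ξ z‖ ≤
          K * (X * V) * |t * c.κ1 t| := by
        rw [norm_mul, norm_mul, Complex.norm_real, Real.norm_eq_abs]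
        calc |c.κ1 t| * ‖ip z ξ‖ * ‖sx S x ξ z‖ ≤
              |c.κ1 t| * (en z * en ξ) * (K * (X * (en ξ * en z))) := by
              refine mul_le_mul (mul_le_mul_of_nonneg_left s2' (abs_nonneg _)) s4 (norm_nonneg _)
                (by positivity)
          _ = _ := by
              rw [abs_mul, abs_of_nonneg ht, ← hez, ← heξ]
              ring
      have r1 := (abs_le.1 (Complex.abs_re_le_norm
        ((((c.κ2 t : ℝ) : ℂ) * ip z ξ * ip ξ z + ((c.κ1 t : ℝ) : ℂ) * ip ξ ξ) * sx S x z z))).1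
      have r2 := (abs_le.1 (Complex.abs_re_le_norm
        ((((c.κ1 t : ℝ) : ℂ) * ip ξ z) * sx S x z ξ))).1
      have r3 := (abs_le.1 (Complex.abs_re_le_norm
        ((((c.κ1 t : ℝ) : ℂ) * ip z ξ) * sx S x ξ z))).1
      have r4 : (δ - 1) * (X * V) ≤ (((c.κ t : ℝ) : ℂ) * sx S x ξ ξ).re := by
        rw [Complex.re_ofReal_mul]
        have k1 := mul_le_mul_of_nonneg_left (hS x ξ) (c.nonneg t)
        have k2 := c.le_one t
        have k3 : 0 ≤ X * V := by positivity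
        nlinarith [mul_nonneg (sub_nonneg.2 hδ1) (mul_nonneg (sub_nonneg.2 k2) k3)]
      simp only [Complex.add_re]
      have slow := c.slow t
      have hE : K * (X * V) * (3 * |t * c.κ1 t| + |t ^ 2 * c.κ2 t|) ≤
          K * (X * V) * η := mul_le_mul_of_nonneg_left slow (by positivity)
      have T1 : V * (1 - 2 * t) * ((1 - K * τ) * X) ≤
          F * (X - c.κ t * (sx S x z z).re) := by
        have h1 : 0 ≤ (1 - K * τ) * X := mul_nonneg (by linarith) hX.le
        calc _ ≤ F * ((1 - K * τ) * X) := mul_le_mul_of_nonneg_right f1 h1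
          _ ≤ _ := mul_le_mul_of_nonneg_left hlow f3
      have T2 : X * V * (1 - (2 + K) * τ) ≤ V * (1 - 2 * t) * ((1 - K * τ) * X) :=
        T2_aux hX hV ht hnear (by positivity)
      have hXV : 0 < X * V := by positivity
      exact fin_aux hXV T1 T2 hsmall E1 E2 E3 r1 r2 r3 r4 hE

end est

section proj

variable {τ η : ℝ} (c : Cutoff τ η) (S : Fin r → Fin r → Fin n → Fin n → ℝ)

/-- The metric on `O(1)^8` in homogeneous coordinates. -/
noncomputable def HH (Z : Cn (n + 1)) : Matrix (Fin r) (Fin r) ℂ := (ip Z Z)⁻¹ • gf c S (qz Z)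


theorem gf_zero : gf c S 0 = 1 := by
  rw [gf, Kf, sf_zero_right, smul_zero, sub_zero]

theorem gf_far (w : Cn n) (h : τ ≤ nsq w) : gf c S w = 1 := by
  rw [gf, Kf, (c.far _ h).1, Complex.ofReal_zero, zero_smul, sub_zero]

theorem gf_one_near {Z : Cn (n + 1)} (hZ : Z ≠ 0) (h0 : Z 0 = 0) :
    ∀ᶠ Y in 𝓝 Z, gf c S (qz Y) = 1 := by
  have hopen : IsOpen {Y : Cn (n + 1) | τ * Complex.normSq (Y 0) < ∑ k : Fin n, Complex.normSq (Y k.succ)} := by
    refine isOpen_lt ?_ ?_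
    · exact continuous_const.mul (Complex.continuous_normSq.comp (continuous_apply 0))
    · exact continuous_finsetSum _ fun k _ => Complex.continuous_normSq.comp (continuous_apply k.succ)
  have hmem : Z ∈ {Y : Cn (n + 1) | τ * Complex.normSq (Y 0) < ∑ k : Fin n, Complex.normSq (Y k.succ)} := by
    change τ * Complex.normSq (Z 0) < ∑ k : Fin n, Complex.normSq (Z k.succ)
    rw [h0, map_zero, mul_zero]
    obtain ⟨i, hi⟩ := Function.ne_iff.1 hZ
    rcases Fin.eq_zero_or_eq_succ i with rfl | ⟨k, rfl⟩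
    · exact absurd h0 hi
    · exact Finset.sum_pos' (fun i _ => Complex.normSq_nonneg _)
        ⟨k, Finset.mem_univ k, Complex.normSq_pos.2 hi⟩
  filter_upwards [hopen.mem_nhds hmem] with Y hY
  by_cases hY0 : Y 0 = 0
  · have : qz Y = 0 := by
      funext k
      simp only [qz, hY0, div_zero, Pi.zero_apply]
    rw [this, gf_zero]
  · refine gf_far c S _ ?_
    have hpos : 0 < Complex.normSq (Y 0) := Complex.normSq_pos.2 hY0
    simp only [nsq, qz, Complex.normSq_div]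
    rw [← Finset.sum_div, le_div_iff₀ hpos]
    exact hY.le

theorem contDiffAt_HH (hτ : 0 < τ) {Z : Cn (n + 1)} (hZ : Z ≠ 0) (α β : Fin r) :
    ContDiffAt ℝ ∞ (fun Z => HH c S Z α β) Z := by
  have hne : ip Z Z ≠ 0 := (ip_self_pos hZ).ne'
  have h1 : ContDiffAt ℝ ∞ (fun Z : Cn (n + 1) => (ip Z Z)⁻¹) Z := contDiff_ip.contDiffAt.inv hne
  by_cases h0 : Z 0 = 0
  · have e : (fun Z => HH c S Z α β) =ᶠ[𝓝 Z] fun Y => (ip Y Y)⁻¹ * (1 : Matrix (Fin r) (Fin r) ℂ) α β := by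
      filter_upwards [gf_one_near c S hZ h0] with Y hY
      rw [HH, hY, Matrix.smul_apply, smul_eq_mul]
    refine ContDiffAt.congr_of_eventuallyEq ?_ e
    exact h1.mul contDiffAt_const
  · simp only [HH, Matrix.smul_apply, smul_eq_mul]
    refine h1.mul ?_
    have hq : ContDiffAt ℝ ∞ (fun Z : Cn (n + 1) => qz Z) Z := by
      rw [contDiffAt_pi]
      intro k
      simp only [qz, div_eq_mul_inv]
      refine ContDiffAt.mul ?_ (ContDiffAt.inv ?_ h0)
      · exact (coordL (k.succ : Fin (n + 1))).contDiff.contDiffAt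
      · exact (coordL (0 : Fin (n + 1))).contDiff.contDiffAt
    exact (contDiff_gf c S α β).contDiffAt.comp Z hq

variable {S}

theorem isMetric_HH (hsym : ∀ α β i j, S β α j i = S α β i j) {K : ℝ}
    (hB : Bdd S K) (hτ : 0 < τ) (hτB : K * τ < 1) :
    IsMetricOnO1 (HH c S) := by
  refine ⟨fun α β Z hZ => (contDiffAt_HH c S hτ hZ α β).contDiffWithinAt, fun Z hZ => ?_,
    fun a Z ha hZ => ?_⟩
  · unfold HH
    refine (gf_posDef c hsym hB hτ hτB _).smul ?_
    have := ip_self_pos hZ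
    rw [Complex.lt_def] at this
    have h2 : ip Z Z = ((ip Z Z).re : ℂ) := Complex.ext (by simp) (by simpa using this.2.symm)
    rw [h2, ← Complex.ofReal_inv]
    have h3 : (0 : ℝ) < (ip Z Z).re := by simpa using this.1
    exact_mod_cast inv_pos.2 h3
  · have h1 : qz (a • Z) = qz Z := by
      funext k
      simp only [qz, Pi.smul_apply, smul_eq_mul]
      rw [mul_div_mul_left _ _ ha]
    have h2 : ip (a • Z) (a • Z) = (a * star a) * ip Z Z := by
      unfold ip
      rw [Finset.mul_sum]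
      refine Finset.sum_congr rfl fun k _ => ?_
      simp only [Pi.smul_apply, smul_eq_mul, star_mul']
      ring
    unfold HH
    rw [h1, h2, smul_smul]
    congr 1
    have h3 : a * star a ≠ 0 := mul_ne_zero ha (star_ne_zero.2 ha)
    rw [mul_inv, ← mul_assoc, mul_inv_cancel₀ h3, one_mul]

/-- Griffiths positivity in all affine charts. -/
theorem griffiths_chart (hsym : ∀ α β i j, S β α j i = S α β i j) {K δ : ℝ}
    (hB : Bdd S K) (hτ : 0 < τ) (hτB : K * τ < 1) (hδ : 0 < δ)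
    (hδ1 : δ ≤ 1) (hsmall : (2 + K) * τ + K * η < δ)
    (hS : ∀ (x : Fin r → ℂ) (ξ : Fin n → ℂ), (δ - 1) * (nsq x * nsq ξ) ≤ (sx S x ξ ξ).re)
    (i : Fin (n + 1)) (p : Cn n) : GriffithsPositiveAt (inChart i (HH c S)) p := by
  have hg : ∀ w, (gf c S w).PosDef := fun w => gf_posDef c hsym hB hτ hτB w
  have h0pos : ∀ w, GriffithsPositiveAt (h0 c (S := S)) w := fun w =>
    griffiths_h0 c hsym w (hg w) fun ξ hξ =>
      main_estimate c hsym hB hτ hτB hδ hδ1 hsmall hS w ξ hξ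
  have hin : inChart i (HH c S) = fun w => HH c S (ins i w) := rfl
  intro ξ hξ
  by_cases hp : ins i p 0 = 0
  · have e : inChart i (HH c S) =ᶠ[𝓝 p] fun w => fs w • (1 : Matrix (Fin r) (Fin r) ℂ) := by
      filter_upwards [(continuous_ins i).continuousAt.eventually
        (gf_one_near c S (ins_ne i p) hp)] with w hw
      rw [hin]
      simp only [HH]
      rw [hw, ip_ins, fs]
    rw [chernCurvature_congr e, e.self_of_nhds]
    have ht := chernCurvature_twist (u := fs) (h := fun _ : Cn n => (1 : Matrix (Fin r) (Fin r) ℂ))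
      (z := p) (two_of_infty contDiff_fs _) (fs_ne p) (fun α β => contDiffAt_const)
      (by rw [Matrix.det_one]; exact one_ne_zero) ξ ξ
    rw [fs_curv, chernCurvature_const, add_zero] at ht
    rw [ht, smul_mul_smul_comm, one_mul, FS_real]
    refine Matrix.PosDef.one.smul ?_
    have h1 := (FS_lower p ξ).2.1 hξ
    have h2 : 0 < fs p := by
      unfold fs
      rw [ip_self]
      have h1 : (0 : ℝ) < (1 + ∑ i, Complex.normSq (p i))⁻¹ := by
        have := Finset.sum_nonneg fun (i : Fin n) (_ : i ∈ Finset.univ) => Complex.normSq_nonneg (p i)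
        positivity
      exact_mod_cast h1
    have h1' : (0 : ℂ) < (((nsq ξ * (1 + nsq p) - ‖ip ξ p‖ ^ 2) / (1 + nsq p) ^ 2 : ℝ) : ℂ) := by
      exact_mod_cast h1
    exact mul_pos h1' h2
  · have hins0 : ContDiffAt ℂ 2 (fun w : Cn n => ins i w 0) p := (contDiff_ins i 0).contDiffAt
    have hne : ∀ᶠ w in 𝓝 p, ins i w 0 ≠ 0 := hins0.continuousAt.eventually_ne hp
    have e : inChart i (HH c S) =ᶠ[𝓝 p]
        fun w => (ins i w 0 * star (ins i w 0))⁻¹ • h0 c (S := S) (qz (ins i w)) := by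
      filter_upwards [hne] with w hw
      rw [hin]
      simp only [HH, h0]
      rw [smul_smul, ip_qz _ hw, fs, mul_inv]
    have hQ := contDiffAt_qz_ins i p hp
    have hh0 : ∀ α β, ContDiff ℝ ∞ fun w => h0 c (S := S) w α β := fun α β => by
      simp only [h0, Matrix.smul_apply, smul_eq_mul]
      exact contDiff_fs.mul (contDiff_gf c S α β)
    have hdet0 : ∀ w, (h0 c (S := S) w).det ≠ 0 := fun w => by
      rw [h0, Matrix.det_smul]
      exact mul_ne_zero (pow_ne_zero _ (fs_ne w)) (hg w).det_pos.ne'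
    have hQr : ContDiffAt ℝ 2 (fun w => qz (ins i w)) p := hQ.restrict_scalars ℝ
    have hhQ : ∀ α β, ContDiffAt ℝ 2 (fun w => h0 c (S := S) (qz (ins i w)) α β) p := fun α β =>
      ContDiffAt.comp (g := fun w => h0 c (S := S) w α β) p (two_of_infty (hh0 α β) _) hQr
    have hu : ContDiffAt ℝ 2 (fun w : Cn n => (ins i w 0 * star (ins i w 0))⁻¹) p := by
      refine ContDiffAt.inv (ContDiffAt.mul (hins0.restrict_scalars ℝ) ?_) ?_
      · exact (Complex.conjCLE.toContinuousLinearMap.contDiff.contDiffAt).comp p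
          (hins0.restrict_scalars ℝ)
      · exact mul_ne_zero hp (star_ne_zero.2 hp)
    have hu0 : (ins i p 0 * star (ins i p 0))⁻¹ ≠ 0 :=
      inv_ne_zero (mul_ne_zero hp (star_ne_zero.2 hp))
    rw [chernCurvature_congr e, e.self_of_nhds,
      chernCurvature_twist (h := fun w => h0 c (S := S) (qz (ins i w))) hu hu0 hhQ (hdet0 _) ξ ξ,
      flat_twist hins0 hp, neg_zero, zero_smul, zero_add,
      chernCurvature_comp hQ (fun α β => two_of_infty (hh0 α β) _) (hdet0 _) ξ ξ, Matrix.mul_smul]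
    refine (h0pos (qz (ins i p)) _ (fderiv_qz_ins_ne i p ξ hp hξ)).smul ?_
    have hn : (0 : ℝ) < (Complex.normSq (ins i p 0))⁻¹ := inv_pos.2 (Complex.normSq_pos.2 hp)
    have : (ins i p 0 * star (ins i p 0))⁻¹ = (((Complex.normSq (ins i p 0))⁻¹ : ℝ) : ℂ) := by
      rw [mul_star_self, Complex.ofReal_inv]
    rw [this]
    exact_mod_cast hn

/-- In the chart `U_0` the metric is `h0`. -/
theorem inChart_zero : inChart 0 (HH c S) = h0 c (S := S) := by
  funext w
  have hin : inChart 0 (HH c S) w = HH c S (ins 0 w) := rfl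
  rw [hin]
  unfold HH h0 fs
  rw [ip_ins]
  congr 2
  funext k
  simp only [qz]
  rw [ins_same, div_one]
  exact ins_succAbove 0 w k

/-- curvature at the centre of the chart. -/
theorem curv_h0_zero (ξ η' : Cn n) :
    chernCurvature (h0 c (S := S)) 0 ξ η' = ip ξ η' • 1 + sf S ξ η' := by
  have hdet : (gf c S 0).det ≠ 0 := by rw [gf_zero, Matrix.det_one]; exact one_ne_zero
  rw [curv_h0 c 0 ξ η' hdet]
  have h1 := curv_gf c S 0 ξ η' hdet
  have hn : nsq (0 : Cn n) = 0 := by simp [nsq]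
  have hip1 : ∀ a : Cn n, ip a 0 = 0 := fun a => by simp [ip]
  have hip2 : ∀ a : Cn n, ip 0 a = 0 := fun a => by simp [ip]
  rw [gf_zero, mul_one, mdz'_gf, mdz'_Kf, hip1, sf_zero_right, sf_zero_right, smul_zero, smul_zero,
    add_zero, neg_zero, zero_mul, zero_mul, add_zero] at h1
  rw [h1]
  congr 1
  · congr 1
    unfold FS
    rw [hip1, hip1]
    ring
  · unfold Lev
    rw [hn, c.zero, hip1, hip2, sf_zero_right, sf_zero_left, sf_zero_right]
    simp

theorem contDiff_h0 (α β : Fin r) : ContDiff ℝ ∞ fun w => h0 c (S := S) w α β := by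
  simp only [h0, Matrix.smul_apply, smul_eq_mul]
  exact contDiff_fs.mul (contDiff_gf c S α β)

end proj

end Pool.Agent.Y240.Gr
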