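import Pool.Agent.Y240.Gr.Final2

set_option autoImplicit false
set_option linter.unusedSectionVars false

namespace Pool.Agent.Y240.Gr

open Finset Filter Topology
open scoped ContDiff ComplexOrder Matrix
open Pool.Agent.W517.Gr (Cn sf R0 ip FormAlg Forms wedge2
  dzf dzbf wedge2_rel wedge2_self_left wedge2_self_right evalForm
  realFrame eval_top curvatureForm chernForm chernCurvature IsMetricOnO1 GriffithsPositiveAt inChart
  Cutoff exists_Cutoff CForm oneForm prod_fun_zero_left prod_fun_zero_right prod_perm2 bij_of_inj)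

section real

variable {n : ℕ}

/-- the real forms `i dz_i ∧ dz̄_j` -/
noncomputable def xx (p : Fin n × Fin n) : FormAlg n := Complex.I • wedge2 (dzf p.1) (dzbf p.2)

theorem coe_wedge2 (a b : CForm n) : ((wedge2 a b : FormAlg n) : ExteriorAlgebra ℂ (CForm n)) =
    ExteriorAlgebra.ι ℂ a * ExteriorAlgebra.ι ℂ b := rfl

theorem coe_list_xx (l : List (Fin n × Fin n)) : ∃ (φ : Fin (2 * l.length) → CForm n),
    (((l.map xx).prod : FormAlg n) : ExteriorAlgebra ℂ (CForm n)) =
      Complex.I ^ l.length • ExteriorAlgebra.ιMulti ℂ (2 * l.length) φ := by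
  have h : ∀ l : List (Fin n × Fin n), ∃ L : List (CForm n), L.length = 2 * l.length ∧
      (((l.map xx).prod : FormAlg n) : ExteriorAlgebra ℂ (CForm n)) =
      Complex.I ^ l.length • (L.map (ExteriorAlgebra.ι ℂ)).prod := by
    intro l
    induction l with
    | nil => exact ⟨[], rfl, by simp⟩
    | cons p l ih =>
      obtain ⟨L, hL, h⟩ := ih
      refine ⟨dzf p.1 :: dzbf p.2 :: L, by simp [hL]; ring, ?_⟩
      have e : (((List.map xx (p :: l)).prod : FormAlg n) : ExteriorAlgebra ℂ (CForm n)) =
          ((xx p : FormAlg n) : ExteriorAlgebra ℂ (CForm n)) *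
            (((l.map xx).prod : FormAlg n) : ExteriorAlgebra ℂ (CForm n)) := by
        rw [List.map_cons, List.prod_cons]; rfl
      have e2 : ((xx p : FormAlg n) : ExteriorAlgebra ℂ (CForm n)) =
          Complex.I • (ExteriorAlgebra.ι ℂ (dzf p.1) * ExteriorAlgebra.ι ℂ (dzbf p.2)) := rfl
      rw [e, h, e2, List.map_cons, List.map_cons, List.prod_cons, List.prod_cons,
        List.length_cons, pow_succ', smul_mul_smul_comm, mul_assoc]
  obtain ⟨L, hL, h⟩ := h l
  refine ⟨fun i => L.get (Fin.cast hL.symm i), ?_⟩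
  rw [h, ExteriorAlgebra.ιMulti_apply]
  congr 2
  refine List.ext_get (by simp [hL]) ?_
  intro m h1 h2
  simp

theorem LL_monomial (l : List (Fin n × Fin n)) : (LL n (l.map xx).prod).im = 0 := by
  by_cases hl : l.length = n
  · obtain ⟨f, rfl⟩ : ∃ f : Fin n → Fin n × Fin n, l = List.ofFn f := by
      refine ⟨fun i => l.get (Fin.cast hl.symm i), ?_⟩
      refine List.ext_get (by simp [hl]) ?_
      intro m h1 h2
      simp
    have h1 : ((List.ofFn f).map xx).prod = Complex.I ^ n •
        ∏ a, wedge2 (dzf (f a).1) (dzbf (f a).2) := by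
      rw [List.map_ofFn, List.prod_ofFn]
      simp only [Function.comp, xx, Finset.prod_smul]
      simp
    rw [h1, map_smul]
    by_cases hp : Function.Injective fun a => (f a).1
    · by_cases hq : Function.Injective fun a => (f a).2
      · obtain ⟨σ, hσ⟩ := bij_of_inj hp
        obtain ⟨ρ, hρ⟩ := bij_of_inj hq
        have h2 : ∏ a, wedge2 (dzf (f a).1) (dzbf (f a).2) =
            ((Equiv.Perm.sign σ : ℤ) : FormAlg n) * ((Equiv.Perm.sign ρ : ℤ) : FormAlg n) *
              ∏ b, wedge2 (dzf b) (dzbf b) := by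
          have := prod_perm2 (fun i j : Fin n => (wedge2 (dzf i) (dzbf j) : FormAlg n))
            (fun i j k l => wedge2_rel _ _ _ _) σ ρ
          rw [← this]
          refine Finset.prod_congr rfl fun a _ => ?_
          rw [show (f a).1 = σ a from (congrFun hσ a).symm, show (f a).2 = ρ a from
            (congrFun hρ a).symm]
        have h3 : (((Equiv.Perm.sign σ : ℤ) : FormAlg n) * ((Equiv.Perm.sign ρ : ℤ) : FormAlg n)) *
              ∏ b, wedge2 (dzf b) (dzbf b) = ((((Equiv.Perm.sign σ : ℤ) * (Equiv.Perm.sign ρ : ℤ) : ℤ) : ℂ)) •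
                (∏ b, wedge2 (dzf b) (dzbf b) : FormAlg n) := by
          rw [Algebra.smul_def, map_intCast, Int.cast_mul]
        rw [h2, h3, map_smul, LL_apply, eval_top, smul_eq_mul, smul_eq_mul]
        have h4 : Complex.I ^ n * ((((Equiv.Perm.sign σ : ℤ) * (Equiv.Perm.sign ρ : ℤ) : ℤ) : ℂ) *
            (-2 * Complex.I) ^ n) =
            ((((Equiv.Perm.sign σ : ℤ) * (Equiv.Perm.sign ρ : ℤ) : ℤ) * 2 ^ n : ℝ) : ℂ) := by
          have : Complex.I ^ n * (-2 * Complex.I) ^ n = 2 ^ n := by
            rw [← mul_pow]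
            congr 1
            rw [mul_left_comm, Complex.I_mul_I]
            norm_num
          push_cast
          linear_combination ((Equiv.Perm.sign σ : ℤ) : ℂ) * ((Equiv.Perm.sign ρ : ℤ) : ℂ) * this
        rw [h4, Complex.ofReal_im]
      · rw [prod_fun_zero_right (fun i j : Fin n => (wedge2 (dzf i) (dzbf j) : FormAlg n))
          (fun i k j => wedge2_self_right _ _ _) (fun a => (f a).1) (fun a => (f a).2) hq]
        simp
    · rw [prod_fun_zero_left (fun i j : Fin n => (wedge2 (dzf i) (dzbf j) : FormAlg n))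
        (fun i j l => wedge2_self_left _ _ _) (fun a => (f a).1) (fun a => (f a).2) hp]
      simp
  · obtain ⟨φ, h⟩ := coe_list_xx l
    rw [LL_apply, h, map_smul]
    unfold evalForm
    rw [ExteriorAlgebra.liftAlternating_apply_ιMulti, dif_neg (by omega)]
    simp

/-- forms whose products with all monomials have real value -/
def QQ (y : FormAlg n) : Prop := ∀ l : List (Fin n × Fin n), (LL n (y * (l.map xx).prod)).im = 0

/-- The subring of forms generated by the real scalars and the `i dz_i ∧ dz̄_j` (in fact a larger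
one). -/
noncomputable def RR (n : ℕ) : Subring (FormAlg n) where
  carrier := {x | ∀ y, QQ y → QQ (x * y)}
  mul_mem' := by
    intro a b ha hb y hy
    rw [mul_assoc]
    exact ha _ (hb _ hy)
  one_mem' := by
    intro y hy
    rwa [one_mul]
  add_mem' := by
    intro a b ha hb y hy l
    rw [add_mul, add_mul, map_add, Complex.add_im, ha y hy l, hb y hy l, add_zero]
  zero_mem' := by
    intro y _ l
    simp
  neg_mem' := by
    intro a ha y hy l
    rw [neg_mul, neg_mul, map_neg, Complex.neg_im, ha y hy l, neg_zero]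

theorem QQ_one : QQ (1 : FormAlg n) := by
  intro l
  rw [one_mul]
  exact LL_monomial l

theorem LL_real_of_mem {x : FormAlg n} (hx : x ∈ RR n) : (LL n x).im = 0 := by
  have h := hx 1 QQ_one []
  simpa using h

theorem smul_mem_RR (t : ℝ) {x : FormAlg n} (hx : x ∈ RR n) : ((t : ℂ) • x) ∈ RR n := by
  intro y hy l
  rw [smul_mul_assoc, smul_mul_assoc, map_smul, smul_eq_mul, Complex.im_ofReal_mul, hx y hy l,
    mul_zero]

theorem xx_mem_RR (p : Fin n × Fin n) : xx p ∈ RR n := by
  intro y hy l
  have h := hy (p :: l)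
  rw [List.map_cons, List.prod_cons, ← mul_assoc, mul_comm y] at h
  exact h

/-- The Schur determinant of a matrix with entries in a subring. -/
theorem schur_mem {A : Type*} [CommRing A] {ι : Type*} [Fintype ι] [DecidableEq ι] (S : Subring A)
    (M : Matrix ι ι A) (h : ∀ a b, M a b ∈ S) {k : ℕ} (lam : Fin k → ℕ) : schur M lam ∈ S := by
  have e : M = (Matrix.of fun a b => (⟨M a b, h a b⟩ : S)).map S.subtype := by
    ext a b
    simp
  rw [e, schur_map]
  exact Subtype.coe_prop _

theorem MM_real {r' k' : ℕ} (N δ : ℝ) (a b : Fin (8 + r')) :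
    MM r' k' (Complex.I / (2 * Real.pi) * N) δ a b ∈ RR (8 + k') := by
  unfold MM
  rw [Matrix.of_apply]
  refine Subring.sum_mem _ fun i _ => Subring.sum_mem _ fun j _ => ?_
  have h := smul_mem_RR (1 / (2 * Real.pi) * N * ((T0 a b i j : ℤ) + δ *
    ((if a = b then 1 else 0) * (if i = j then 1 else 0)))) (xx_mem_RR (i, j))
  convert h using 1
  unfold xx om
  rw [smul_smul]
  congr 1
  split_ifs <;> push_cast <;> ring

theorem exists_all_real (r' k' : ℕ) (hrk : r' = 0 → k' = 0) (M : ℝ) :
    ∃ h : Cn (8 + k' + 1) → Matrix (Fin (8 + r')) (Fin (8 + r')) ℂ, IsMetricOnO1 h ∧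
      (∀ (i : Fin (8 + k' + 1)) (w : Cn (8 + k')), GriffithsPositiveAt (inChart i h) w) ∧
      (LL (8 + k') (schur ((Complex.I / (2 * Real.pi)) • curvatureForm (inChart 0 h) 0)
        (hook k'))).re < -M ∧
      (LL (8 + k') (schur ((Complex.I / (2 * Real.pi)) • curvatureForm (inChart 0 h) 0)
        (hook k'))).im = 0 := by
  obtain ⟨h, h1, h2, h3, N, δ, h4⟩ := exists_all r' k' hrk M
  refine ⟨h, h1, h2, h3, ?_⟩
  rw [h4]
  exact LL_real_of_mem (schur_mem _ _ (MM_real N δ) _)

end real

end Pool.Agent.Y240.Gr
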