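import Pool.Agent.Y240.Gr.Met

set_option autoImplicit false
set_option linter.unusedSectionVars false

namespace Pool.Agent.Y240.Gr

open Finset
open scoped ContDiff ComplexOrder Matrix
open Pool.Agent.W517.Gr (Cn sf R0 qf qf_nonneg ip R0_symm mul_star_self ip_self)

/-- The tensor, on sum types. -/
def T0s {r' k' : ℕ} : Fin 8 ⊕ Fin r' → Fin 8 ⊕ Fin r' → Fin 8 ⊕ Fin k' → Fin 8 ⊕ Fin k' → ℤ
  | Sum.inl a, Sum.inl b, Sum.inl i, Sum.inl j => R0 a b i j
  | Sum.inr a, Sum.inr b, Sum.inr i, Sum.inr j =>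
      if (a : ℕ) = 0 ∧ (b : ℕ) = 0 ∧ i = j then 1 else 0
  | _, _, _, _ => 0

/-- The tensor `R0 ⊕ (one line bundle positive in the remaining directions)`. -/
def T0 {r' k' : ℕ} (a b : Fin (8 + r')) (i j : Fin (8 + k')) : ℤ :=
  T0s (finSumFinEquiv.symm a) (finSumFinEquiv.symm b) (finSumFinEquiv.symm i)
    (finSumFinEquiv.symm j)

theorem T0s_symm {r' k' : ℕ} (a b : Fin 8 ⊕ Fin r') (i j : Fin 8 ⊕ Fin k') :
    T0s b a j i = T0s a b i j := by
  rcases a with a | a <;> rcases b with b | b <;> rcases i with i | i <;> rcases j with j | j <;>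
    simp only [T0s]
  · exact R0_symm a b i j
  · congr 1
    apply propext
    constructor <;> rintro ⟨h1, h2, h3⟩ <;> exact ⟨h2, h1, h3.symm⟩

theorem T0_symm {r' k' : ℕ} (a b : Fin (8 + r')) (i j : Fin (8 + k')) :
    T0 b a j i = T0 a b i j := T0s_symm _ _ _ _

/-- the quadratic form of the tensor -/
theorem T0_form {r' k' : ℕ} (x : Fin (8 + r') → ℂ) (ξ : Fin (8 + k') → ℂ) :
    ∃ t : ℝ, 0 ≤ t ∧ ∑ a, ∑ b, ∑ i, ∑ j, ((T0 a b i j : ℤ) : ℂ) *
      (star (x a) * x b * (ξ i * star (ξ j))) = (t : ℂ) := by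
  have e : ∑ a, ∑ b, ∑ i, ∑ j, ((T0 a b i j : ℤ) : ℂ) *
      (star (x a) * x b * (ξ i * star (ξ j))) =
      ∑ a : Fin 8 ⊕ Fin r', ∑ b : Fin 8 ⊕ Fin r', ∑ i : Fin 8 ⊕ Fin k', ∑ j : Fin 8 ⊕ Fin k',
        ((T0s a b i j : ℤ) : ℂ) * (star (x (finSumFinEquiv a)) * x (finSumFinEquiv b) *
          (ξ (finSumFinEquiv i) * star (ξ (finSumFinEquiv j)))) := by
    rw [← finSumFinEquiv.sum_comp]
    refine Finset.sum_congr rfl fun a _ => ?_
    rw [← finSumFinEquiv.sum_comp]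
    refine Finset.sum_congr rfl fun b _ => ?_
    rw [← finSumFinEquiv.sum_comp]
    refine Finset.sum_congr rfl fun i _ => ?_
    rw [← finSumFinEquiv.sum_comp]
    refine Finset.sum_congr rfl fun j _ => ?_
    simp only [T0, Equiv.symm_apply_apply]
  rw [e]
  simp only [Fintype.sum_sum_type, T0s, Int.cast_zero, zero_mul, Finset.sum_const_zero, add_zero,
    zero_add]
  obtain ⟨t, ht, hq⟩ := qf_nonneg (fun a => x (finSumFinEquiv (Sum.inl a)))
    (fun i => ξ (finSumFinEquiv (Sum.inl i)))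
  unfold qf at hq
  rw [hq]
  set s : ℝ := ∑ a : Fin r', (if (a : ℕ) = 0 then Complex.normSq (x (finSumFinEquiv (Sum.inr a)))
    else 0) * ∑ i : Fin k', Complex.normSq (ξ (finSumFinEquiv (Sum.inr i))) with hs
  have hs0 : 0 ≤ s := by
    refine Finset.sum_nonneg fun a _ => mul_nonneg ?_ (Finset.sum_nonneg fun i _ =>
      Complex.normSq_nonneg _)
    split_ifs
    · exact Complex.normSq_nonneg _
    · exact le_rfl
  refine ⟨t + s, by positivity, ?_⟩
  rw [Complex.ofReal_add]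
  congr 1
  rw [hs, Complex.ofReal_sum]
  refine Finset.sum_congr rfl fun a _ => ?_
  rw [Finset.sum_eq_single a]
  · rw [Complex.ofReal_mul, Complex.ofReal_sum, Finset.mul_sum]
    refine Finset.sum_congr rfl fun i _ => ?_
    rw [Finset.sum_eq_single i]
    · by_cases h : (a : ℕ) = 0
      · simp only [h, true_and, if_true, Int.cast_one, one_mul]
        rw [← mul_star_self, ← mul_star_self]
        ring
      · simp [h]
    · intro j _ hj
      have : ¬ i = j := fun h => hj h.symm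
      simp [this]
    · simp
  · intro b _ hb
    refine Finset.sum_eq_zero fun i _ => Finset.sum_eq_zero fun j _ => ?_
    have : ¬ ((a : ℕ) = 0 ∧ (b : ℕ) = 0 ∧ i = j) := by
      rintro ⟨h1, h2, _⟩
      exact hb (Fin.ext (h2.trans h1.symm))
    rw [if_neg this]
    simp
  · simp

/-- The tensor of the metric: `N (T0 + δ Id) - Id`. -/
noncomputable def Sg {r' k' : ℕ} (N δ : ℝ) (a b : Fin (8 + r')) (i j : Fin (8 + k')) : ℝ :=
  N * (T0 a b i j : ℤ) + (N * δ - 1) * ((if a = b then 1 else 0) * (if i = j then 1 else 0))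

theorem Sg_symm {r' k' : ℕ} (N δ : ℝ) (a b : Fin (8 + r')) (i j : Fin (8 + k')) :
    Sg N δ b a j i = Sg N δ a b i j := by
  unfold Sg
  rw [T0_symm]
  simp only [eq_comm]

theorem sf_Sg {r' k' : ℕ} (N δ : ℝ) (x y : Fin (8 + k') → ℂ) (a b : Fin (8 + r')) :
    sf (Sg N δ) x y a b = (N : ℂ) * (∑ i, ∑ j, ((T0 a b i j : ℤ) : ℂ) * (x i * star (y j))) +
      ((N * δ - 1 : ℝ) : ℂ) * ((if a = b then 1 else 0) * ip x y) := by
  simp only [sf, Matrix.of_apply, Sg]
  have h : ip x y = ∑ i, ∑ j, (if i = j then (1 : ℂ) else 0) * (x i * star (y j)) := by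
    unfold ip
    refine Finset.sum_congr rfl fun i _ => ?_
    rw [Finset.sum_eq_single i]
    · simp
    · intro j _ hj
      rw [if_neg (Ne.symm hj), zero_mul]
    · simp
  rw [h]
  simp only [Finset.mul_sum]
  rw [← Finset.sum_add_distrib]
  refine Finset.sum_congr rfl fun i _ => ?_
  rw [← Finset.sum_add_distrib]
  refine Finset.sum_congr rfl fun j _ => ?_
  split_ifs <;> push_cast <;> ring

theorem sx_Sg {r' k' : ℕ} (N δ : ℝ) (x : Fin (8 + r') → ℂ) (ξ : Fin (8 + k') → ℂ) :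
    sx (Sg N δ) x ξ ξ = (N : ℂ) * (∑ a, ∑ b, ∑ i, ∑ j, ((T0 a b i j : ℤ) : ℂ) *
      (star (x a) * x b * (ξ i * star (ξ j)))) + ((N * δ - 1 : ℝ) : ℂ) *
        ((nsq x * nsq ξ : ℝ) : ℂ) := by
  have h1 : sx (Sg N δ) x ξ ξ = ∑ a, ∑ b, star (x a) * (sf (Sg N δ) ξ ξ a b * x b) := by
    simp only [sx, dotProduct, Matrix.mulVec, Pi.star_apply, Finset.mul_sum]
  rw [h1]
  simp only [sf_Sg]
  have h2 : ((nsq x * nsq ξ : ℝ) : ℂ) = ∑ a, ∑ b, star (x a) * x b *
      ((if a = b then 1 else 0) * ip ξ ξ) := by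
    rw [Complex.ofReal_mul]
    have e1 : ((nsq ξ : ℝ) : ℂ) = ip ξ ξ := by rw [ip_self]; rfl
    rw [e1]
    unfold nsq
    rw [Complex.ofReal_sum, Finset.sum_mul]
    refine Finset.sum_congr rfl fun a _ => ?_
    rw [Finset.sum_eq_single a]
    · rw [if_pos rfl, one_mul, ← mul_star_self]
      ring
    · intro b _ hb
      rw [if_neg (Ne.symm hb)]
      ring
    · simp
  rw [h2]
  simp only [Finset.mul_sum]
  rw [← Finset.sum_add_distrib]
  refine Finset.sum_congr rfl fun a _ => ?_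
  rw [← Finset.sum_add_distrib]
  refine Finset.sum_congr rfl fun b _ => ?_
  rw [mul_comm (star (x a)), add_mul, add_mul]
  congr 1
  · rw [Finset.sum_mul, Finset.sum_mul]
    refine Finset.sum_congr rfl fun i _ => ?_
    rw [Finset.sum_mul, Finset.sum_mul]
    refine Finset.sum_congr rfl fun j _ => ?_
    ring
  · ring

theorem Sg_lower {r' k' : ℕ} {N δ δ' : ℝ} (hN : 0 ≤ N) (h : δ' ≤ N * δ)
    (x : Fin (8 + r') → ℂ) (ξ : Fin (8 + k') → ℂ) :
    (δ' - 1) * (nsq x * nsq ξ) ≤ (sx (Sg N δ) x ξ ξ).re := by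
  obtain ⟨t, ht, hq⟩ := T0_form x ξ
  rw [sx_Sg, hq, ← Complex.ofReal_mul, ← Complex.ofReal_mul, ← Complex.ofReal_add,
    Complex.ofReal_re]
  have h1 := mul_nonneg (nsq_nonneg x) (nsq_nonneg ξ)
  have h2 : (δ' - 1) * (nsq x * nsq ξ) ≤ (N * δ - 1) * (nsq x * nsq ξ) :=
    mul_le_mul_of_nonneg_right (by linarith) h1
  have h3 : 0 ≤ N * t := mul_nonneg hN ht
  linarith

end Pool.Agent.Y240.Gr
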